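import Pool.Agent.R735.HA.Defs

/-!
# The double alternating sum of a tensor with a decomposable null bivector as a Gaussian integral
-/

set_option autoImplicit false

namespace Pool.Agent.R735.HA

open Finset MeasureTheory Pool.Agent.TH598.GV
open scoped ComplexConjugate ComplexOrder
open Pool.Agent.TH991.J3417 (GM GM_comp PP_comp PP_sum PP_cons_comp PP_slot prod_slot GM_slot
  prod_add_unique conj_PP bil int_sum)

lemma em_ne (j : K 2) (c : Bool) : (em j : Ix 2) ≠ (0, c) :=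
  Pool.Agent.TH263.J4005.em_ne j c

/-- the slot of `(0, c)` -/
def sl (c : Bool) (σ : Equiv.Perm (Ix 2)) : Fin 3 := (σ.symm (0, c)).1

lemma sl_spec (c : Bool) (σ : Equiv.Perm (Ix 2)) : ∃ d, σ (sl c σ, d) = (0, c) :=
  ⟨(σ.symm (0, c)).2, by rw [sl, Prod.mk.eta, Equiv.apply_symm_apply]⟩

lemma sl_ne {c : Bool} {σ : Equiv.Perm (Ix 2)} {b : Fin 3} (h : b ≠ sl c σ) (d : Bool) :
    σ (b, d) ≠ (0, c) := by
  intro hc
  apply h
  rw [sl, ← hc, Equiv.symm_apply_apply]

lemma wp_left (p : T6) (c : Bool) (j : Ix 2) : wp p (0, c) j = 0 := by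
  unfold wp
  rw [if_neg (em_ne p.1 c).symm, zero_mul]

lemma wp_right (p : T6) (c : Bool) (j : Ix 2) : wp p j (0, c) = 0 := by
  unfold wp
  rw [if_neg (em_ne p.2 c).symm, mul_zero]

lemma BS_zero (s : S8) (c d : Bool) : BS s (0, c) (0, d) = 0 := by
  unfold BS
  rw [if_neg (em_ne (sx s).2 d).symm, if_neg (em_ne (sx s).2 c).symm]
  ring

lemma BS_free (s : S8) {i j : Ix 2} (hi : ∀ c, i ≠ (0, c)) (hj : ∀ c, j ≠ (0, c)) :
    BS s i j = 0 := by
  unfold BS
  rw [if_neg (hi _), if_neg (hj _)]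
  ring

lemma wp_sl (p : T6) (c : Bool) (σ : Equiv.Perm (Ix 2)) :
    wp p (σ (sl c σ, false)) (σ (sl c σ, true)) = 0 := by
  obtain ⟨d, hd⟩ := sl_spec c σ
  cases d
  · rw [hd, wp_left]
  · rw [hd, wp_right]

lemma BS_fr (s : S8) {σ : Equiv.Perm (Ix 2)} {b : Fin 3} (h0 : b ≠ sl false σ)
    (h1 : b ≠ sl true σ) : BS s (σ (b, false)) (σ (b, true)) = 0 :=
  BS_free s (fun c => by cases c; exacts [sl_ne h0 _, sl_ne h1 _])
    (fun c => by cases c; exacts [sl_ne h0 _, sl_ne h1 _])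

/-- `e₀` and `e₁` in the same slot -/
lemma same {σ : Equiv.Perm (Ix 2)} (h : sl false σ = sl true σ) :
    (∃ c d, σ (sl false σ, false) = (0, c) ∧ σ (sl false σ, true) = (0, d)) := by
  obtain ⟨d0, h0⟩ := sl_spec false σ
  obtain ⟨d1, h1⟩ := sl_spec true σ
  rw [← h] at h1
  cases d0 <;> cases d1
  · rw [h0] at h1; exact absurd (congrArg Prod.snd h1) (by simp)
  · exact ⟨_, _, h0, h1⟩
  · exact ⟨_, _, h1, h0⟩
  · rw [h0] at h1; exact absurd (congrArg Prod.snd h1) (by simp)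

lemma third {x y : Fin 3} (h : x ≠ y) : ∃ z, z ≠ x ∧ z ≠ y ∧ ∀ b, b ≠ z → b = x ∨ b = y := by
  revert x y
  decide

lemma ew_sl (z : S8 → ℂ) {σ : Equiv.Perm (Ix 2)} {b : Fin 3} (h0 : b ≠ sl false σ)
    (h1 : b ≠ sl true σ) : ew z (σ (b, false)) (σ (b, true)) = 0 := by
  unfold ew
  exact Finset.sum_eq_zero fun s _ => by rw [BS_fr s h0 h1, mul_zero]

lemma ew_same (z : S8 → ℂ) {σ : Equiv.Perm (Ix 2)} (h : sl false σ = sl true σ) :
    ew z (σ (sl false σ, false)) (σ (sl false σ, true)) = 0 := by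
  obtain ⟨c, d, h0, h1⟩ := same h
  unfold ew
  exact Finset.sum_eq_zero fun s _ => by rw [h0, h1, BS_zero, mul_zero]

lemma wc_sl (γ : T6 → ℂ) (c : Bool) (σ : Equiv.Perm (Ix 2)) :
    wc γ (σ (sl c σ, false)) (σ (sl c σ, true)) = 0 := by
  unfold wc
  exact Finset.sum_eq_zero fun s _ => by rw [wp_sl, mul_zero]

lemma SZ_sl (Γ : Matrix T6 T6 ℂ) (c : Bool) (σ : Equiv.Perm (Ix 2)) (i' j' : Ix 2) :
    SZ Γ (σ (sl c σ, false)) (σ (sl c σ, true)) i' j' = 0 := by
  unfold SZ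
  exact Finset.sum_eq_zero fun p _ => Finset.sum_eq_zero fun q _ => by
    rw [wp_sl, mul_zero, zero_mul]

lemma RZ_same (L : Matrix S8 S8 ℂ) (g : S8 → T6 → ℂ) {σ : Equiv.Perm (Ix 2)}
    (h : sl false σ = sl true σ) (i' j' : Ix 2) :
    RZ L g (σ (sl false σ, false)) (σ (sl false σ, true)) i' j' = 0 := by
  unfold RZ hz
  exact Finset.sum_eq_zero fun p _ => by
    rw [ew_same _ h, wc_sl, add_zero, zero_mul]

/-- expansion of a product of sums -/
lemma prod_two {B : Type} [Fintype B] [DecidableEq B] (R S : B → ℂ)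
    (h : (∃ b, R b = 0 ∧ S b = 0) ∨ ∃ b0, ∀ b, b ≠ b0 → S b = 0) :
    ∏ b, (R b + S b) = ∏ b, R b + ∑ b, S b * ∏ b' ∈ univ.erase b, R b' := by
  rcases h with ⟨b, h1, h2⟩ | ⟨b0, h⟩
  · rw [Finset.prod_eq_zero (Finset.mem_univ b) (by rw [h1, h2, add_zero]),
      Finset.prod_eq_zero (Finset.mem_univ b) h1, zero_add, eq_comm]
    refine Finset.sum_eq_zero fun b' _ => ?_
    by_cases hb : b' = b
    · rw [hb, h2, zero_mul]
    · rw [Finset.prod_eq_zero (Finset.mem_erase.2 ⟨Ne.symm hb, Finset.mem_univ b⟩) h1, mul_zero]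
  · exact prod_add_unique R S b0 h

/-- splitting off the slot `0` -/
lemma pc3 (F : Fin (2 + 1) → ℂ) : ∏ b, F b = F 0 * ∏ i : Fin 2, F i.succ :=
  Fin.prod_univ_succ F

/-- `PP` of `ew z + wc γ` in all slots -/
lemma PP_const (z : S8 → ℂ) (γ : T6 → ℂ) :
    PP (B := Fin (2 + 1)) (fun _ i j => ew z i j + wc γ i j) =
      3 * ∑ p, γ p * YY (ew z) p := by
  have h1 : PP (B := Fin (2 + 1)) (fun _ i j => ew z i j + wc γ i j) =
      ∑ b : Fin (2 + 1), PP (B := Fin (2 + 1)) (fun b' => if b' = b then wc γ else ew z) := by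
    unfold PP
    rw [Finset.sum_comm]
    refine Finset.sum_congr rfl fun σ _ => ?_
    have h2 : ∏ b : Fin (2 + 1), (ew z (σ (b, false)) (σ (b, true)) +
        wc γ (σ (b, false)) (σ (b, true))) =
        ∑ b : Fin (2 + 1), wc γ (σ (b, false)) (σ (b, true)) *
          ∏ b' ∈ univ.erase b, ew z (σ (b', false)) (σ (b', true)) := by
      by_cases hs : sl false σ = sl true σ
      · rw [prod_two _ _ (Or.inl ⟨sl false σ, ew_same z hs, wc_sl γ false σ⟩),
          Finset.prod_eq_zero (Finset.mem_univ (sl false σ)) (ew_same z hs), zero_add]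
      · obtain ⟨b, hb0, hb1, hb⟩ := third hs
        rw [prod_two _ _ (Or.inr ⟨b, fun b' hb' => ?_⟩),
          Finset.prod_eq_zero (Finset.mem_univ b) (ew_sl z hb0 hb1), zero_add]
        rcases hb b' hb' with rfl | rfl
        · exact wc_sl γ false σ
        · exact wc_sl γ true σ
    rw [h2, Finset.mul_sum]
    refine Finset.sum_congr rfl fun b _ => ?_
    congr 1
    rw [← prod_slot (fun b => wc γ (σ (b, false)) (σ (b, true)))
      (fun b => ew z (σ (b, false)) (σ (b, true)))]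
    refine Finset.prod_congr rfl fun b' _ => ?_
    dsimp only
    split_ifs <;> rfl
  have h3 : PP (B := Fin (2 + 1)) (Fin.cons (wc γ) (fun _ => ew z)) =
      ∑ p, γ p * YY (ew z) p := by
    unfold YY PP
    simp only [Finset.mul_sum]
    rw [Finset.sum_comm]
    refine Finset.sum_congr rfl fun σ _ => ?_
    simp only [pc3, Fin.cons_zero, Fin.cons_succ]
    unfold wc
    rw [Finset.sum_mul, Finset.mul_sum]
    exact Finset.sum_congr rfl fun p _ => by ring
  rw [h1, Finset.sum_congr rfl fun b _ => PP_slot (wc γ) (ew z) b, Finset.sum_const,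
    Finset.card_univ, Fintype.card_fin, nsmul_eq_mul, h3]
  push_cast
  ring

/-- the other slots may be changed by matrices of the complement -/
lemma PP_cons_wp (p : T6) (β : Fin 2 → S8 → ℂ) (γ : Fin 2 → T6 → ℂ) :
    PP (B := Fin (2 + 1)) (Fin.cons (wp p) (fun i s t => ew (β i) s t + wc (γ i) s t)) =
      PP (B := Fin (2 + 1)) (Fin.cons (wp p) (fun i s t => ew (β i) s t)) := by
  unfold PP
  refine Finset.sum_congr rfl fun σ _ => ?_
  congr 1
  rw [pc3, pc3]
  simp only [Fin.cons_zero, Fin.cons_succ]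
  by_cases hs : sl false σ = sl true σ
  · by_cases h : (0 : Fin 3) = sl false σ
    · have := wp_sl p false σ
      rw [← h] at this
      rw [this, zero_mul, zero_mul]
    · obtain ⟨i, hi⟩ : ∃ i : Fin 2, i.succ = sl false σ := Fin.exists_succ_eq.2 (Ne.symm h)
      rw [Finset.prod_eq_zero (Finset.mem_univ i), Finset.prod_eq_zero (Finset.mem_univ i)]
      · rw [hi]; exact ew_same _ hs
      · rw [hi, ew_same _ hs, wc_sl, add_zero]
  · obtain ⟨b, hb0, hb1, hb⟩ := third hs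
    by_cases h : (0 : Fin 3) = b
    · congr 1
      refine Finset.prod_congr rfl fun i _ => ?_
      have hne : i.succ ≠ b := by rw [← h]; exact Fin.succ_ne_zero i
      rcases hb i.succ hne with h' | h'
      · rw [h', wc_sl, add_zero]
      · rw [h', wc_sl, add_zero]
    · rcases hb 0 h with h' | h'
      · rw [h', wp_sl, zero_mul, zero_mul]
      · rw [h', wp_sl, zero_mul, zero_mul]

lemma sum_ew (L : Matrix S8 S8 ℂ) (ξ : S8 → ℂ) (i j : Ix 2) :
    ∑ a, ξ a * ew (fun s => L s a) i j = ew (L.mulVec ξ) i j := by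
  unfold ew Matrix.mulVec dotProduct
  simp only [Finset.mul_sum, Finset.sum_mul]
  rw [Finset.sum_comm]
  exact Finset.sum_congr rfl fun s _ => Finset.sum_congr rfl fun a _ => by ring

lemma sum_hz (L : Matrix S8 S8 ℂ) (g : S8 → T6 → ℂ) (ξ : S8 → ℂ)
    (i j : Ix 2) :
    ∑ a, ξ a * hz L g a i j =
      ew (L.mulVec ξ) i j + wc (fun p => ∑ a, ξ a * g a p) i j := by
  simp only [hz, mul_add, Finset.sum_add_distrib, sum_ew]
  congr 1
  unfold wc
  simp only [Finset.mul_sum, Finset.sum_mul]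
  rw [Finset.sum_comm]
  exact Finset.sum_congr rfl fun s _ => Finset.sum_congr rfl fun a _ => by ring

lemma conj_wp (p : T6) (i j : Ix 2) : conj (wp p i j) = wp p i j := by
  simp only [wp, map_mul, apply_ite (starRingEnd ℂ), map_one, map_zero]

/-- `PP (w p, β_a)` -/
noncomputable def pc (L : Matrix S8 S8 ℂ) (p : T6) (a : Fin 2 → S8) : ℂ :=
  PP (B := Fin (2 + 1)) (Fin.cons (wp p) (fun i => ew (fun s => L s (a i))))

/-- `PP (h_a)` -/
noncomputable def ph (L : Matrix S8 S8 ℂ) (g : S8 → T6 → ℂ)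
    (a : Fin (2 + 1) → S8) : ℂ :=
  PP (B := Fin (2 + 1)) (fun b => hz L g (a b))

/-- the part without Schur complement -/
lemma part0 (L : Matrix S8 S8 ℂ) (g : S8 → T6 → ℂ) :
    GM (B := Fin (2 + 1)) (fun _ => RZ L g) = ∑ a, ph L g a * conj (ph L g a) := by
  unfold GM
  have h1 : ∀ σ τ : Equiv.Perm (Ix 2),
      ∏ b : Fin (2 + 1), RZ L g (σ (b, false)) (σ (b, true)) (τ (b, false)) (τ (b, true)) =
      ∑ a : Fin (2 + 1) → S8, (1 : ℂ) *
        ((∏ b, hz L g (a b) (σ (b, false)) (σ (b, true))) *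
          ∏ b, conj (hz L g (a b) (τ (b, false)) (τ (b, true)))) := by
    intro σ τ
    unfold RZ
    rw [Finset.prod_univ_sum, Fintype.piFinset_univ]
    refine Finset.sum_congr rfl fun a _ => ?_
    rw [Finset.prod_mul_distrib, one_mul]
  simp only [h1]
  rw [bil]
  refine Finset.sum_congr rfl fun a _ => ?_
  rw [one_mul]
  unfold ph
  rw [conj_PP]
  rfl

lemma sum_triple (F : (T6 × T6) × (Fin 2 → S8) → ℂ) :
    ∑ x, F x = ∑ p, ∑ q, ∑ a, F ((p, q), a) :=
  (Fintype.sum_prod_type F).trans (Fintype.sum_prod_type _)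

/-- the part with one Schur complement -/
lemma part1 (L : Matrix S8 S8 ℂ) (g : S8 → T6 → ℂ) (Γ : Matrix T6 T6 ℂ) :
    GM (B := Fin (2 + 1)) (Fin.cons (SZ Γ) (fun _ => RZ L g)) =
      ∑ p, ∑ q, Γ p q * ∑ a, pc L p a * conj (pc L q a) := by
  have h1 : ∀ σ τ : Equiv.Perm (Ix 2),
      ∏ b : Fin (2 + 1), (Fin.cons (SZ Γ) (fun _ => RZ L g) :
          Fin (2 + 1) → Ix 2 → Ix 2 → Ix 2 → Ix 2 → ℂ) b
        (σ (b, false)) (σ (b, true)) (τ (b, false)) (τ (b, true)) =
      ∑ x : (T6 × T6) × (Fin 2 → S8), Γ x.1.1 x.1.2 *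
        ((∏ b : Fin (2 + 1), (Fin.cons (wp x.1.1) (fun i => hz L g (x.2 i)) :
            Fin (2 + 1) → Ix 2 → Ix 2 → ℂ) b (σ (b, false)) (σ (b, true))) *
          ∏ b : Fin (2 + 1), conj ((Fin.cons (wp x.1.2) (fun i => hz L g (x.2 i)) :
            Fin (2 + 1) → Ix 2 → Ix 2 → ℂ) b (τ (b, false)) (τ (b, true)))) := by
    intro σ τ
    rw [pc3]
    simp only [Fin.cons_zero, Fin.cons_succ]
    unfold RZ SZ
    rw [Finset.prod_univ_sum, Fintype.piFinset_univ, sum_triple, Finset.sum_mul]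
    refine Finset.sum_congr rfl fun p _ => ?_
    rw [Finset.sum_mul]
    refine Finset.sum_congr rfl fun q _ => ?_
    rw [Finset.mul_sum]
    refine Finset.sum_congr rfl fun a _ => ?_
    rw [pc3, pc3]
    simp only [Fin.cons_zero, Fin.cons_succ, conj_wp]
    rw [Finset.prod_mul_distrib]
    ring
  unfold GM
  simp only [h1]
  rw [bil, sum_triple]
  refine Finset.sum_congr rfl fun p _ => Finset.sum_congr rfl fun q _ => ?_
  rw [Finset.mul_sum]
  refine Finset.sum_congr rfl fun a _ => ?_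
  congr 1
  have h2 : ∀ p : T6, pc L p a =
      PP (B := Fin (2 + 1)) (Fin.cons (wp p) (fun i => hz L g (a i))) := by
    intro p
    unfold pc
    exact (PP_cons_wp p (fun i s => L s (a i)) (fun i => g (a i))).symm
  rw [h2, h2, conj_PP]
  rfl

theorem GG_expand (L : Matrix S8 S8 ℂ) (g : S8 → T6 → ℂ) (Γ : Matrix T6 T6 ℂ) :
    GG (HZ L g Γ) = ∑ a, ph L g a * conj (ph L g a) +
      3 * ∑ p, ∑ q, Γ p q * ∑ a, pc L p a * conj (pc L q a) := by
  have h1 : GG (HZ L g Γ) = GM (B := Fin (2 + 1)) (fun _ => RZ L g) +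
      ∑ b : Fin (2 + 1),
        GM (B := Fin (2 + 1)) (fun b' => if b' = b then SZ Γ else RZ L g) := by
    have h3 : ∑ b : Fin (2 + 1),
        GM (B := Fin (2 + 1)) (fun b' => if b' = b then SZ Γ else RZ L g) =
        ∑ σ : Equiv.Perm (Ix 2), ∑ τ : Equiv.Perm (Ix 2), ∑ b : Fin (2 + 1), cs σ * cs τ *
          ∏ b' : Fin (2 + 1), (if b' = b then SZ Γ else RZ L g)
            (σ (b', false)) (σ (b', true)) (τ (b', false)) (τ (b', true)) := by
      unfold GM
      rw [Finset.sum_comm]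
      refine Finset.sum_congr rfl fun σ _ => ?_
      rw [Finset.sum_comm]
    rw [h3]
    unfold GG GM
    rw [← Finset.sum_add_distrib]
    refine Finset.sum_congr rfl fun σ _ => ?_
    rw [← Finset.sum_add_distrib]
    refine Finset.sum_congr rfl fun τ _ => ?_
    have h2 : ∀ b : Fin (2 + 1),
        HZ L g Γ (σ (b, false)) (σ (b, true)) (τ (b, false)) (τ (b, true)) =
        RZ L g (σ (b, false)) (σ (b, true)) (τ (b, false)) (τ (b, true)) +
        SZ Γ (σ (b, false)) (σ (b, true)) (τ (b, false)) (τ (b, true)) := fun b => rfl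
    have h4 : (∃ b : Fin (2 + 1),
        RZ L g (σ (b, false)) (σ (b, true)) (τ (b, false)) (τ (b, true)) = 0 ∧
        SZ Γ (σ (b, false)) (σ (b, true)) (τ (b, false)) (τ (b, true)) = 0) ∨
        ∃ b0 : Fin (2 + 1), ∀ b, b ≠ b0 →
          SZ Γ (σ (b, false)) (σ (b, true)) (τ (b, false)) (τ (b, true)) = 0 := by
      by_cases hs : sl false σ = sl true σ
      · exact Or.inl ⟨sl false σ, RZ_same L g hs _ _, SZ_sl Γ false σ _ _⟩
      · obtain ⟨b, hb0, hb1, hb⟩ := third hs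
        refine Or.inr ⟨b, fun b' hb' => ?_⟩
        rcases hb b' hb' with rfl | rfl
        · exact SZ_sl Γ false σ _ _
        · exact SZ_sl Γ true σ _ _
    rw [Finset.prod_congr rfl fun b _ => h2 b, prod_two _ _ h4, mul_add, Finset.mul_sum]
    congr 1
    refine Finset.sum_congr rfl fun b _ => ?_
    congr 1
    rw [← prod_slot (fun b => SZ Γ (σ (b, false)) (σ (b, true)) (τ (b, false)) (τ (b, true)))
      (fun b => RZ L g (σ (b, false)) (σ (b, true)) (τ (b, false)) (τ (b, true)))]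
    refine Finset.prod_congr rfl fun b' _ => ?_
    split_ifs <;> rfl
  rw [h1, Finset.sum_congr rfl fun b _ => GM_slot (SZ Γ) (RZ L g) b, Finset.sum_const,
    Finset.card_univ, Fintype.card_fin, nsmul_eq_mul, part1, part0]
  push_cast
  ring

lemma ph_sym (L : Matrix S8 S8 ℂ) (g : S8 → T6 → ℂ)
    (π : Equiv.Perm (Fin (2 + 1))) (a : Fin (2 + 1) → S8) : ph L g (a ∘ π) = ph L g a :=
  PP_comp (fun b => hz L g (a b)) π

lemma pc_sym (L : Matrix S8 S8 ℂ) (p : T6)
    (π : Equiv.Perm (Fin 2)) (a : Fin 2 → S8) : pc L p (a ∘ π) = pc L p a :=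
  PP_cons_comp (wp p) (fun i => ew (fun s => L s (a i))) π

/-- the complex square root of the first part of the integrand -/
noncomputable def om0 (L : Matrix S8 S8 ℂ) (g : S8 → T6 → ℂ)
    (ξ : S8 → ℂ) : ℂ := ∑ p, (∑ a, ξ a * g a p) * YY (ew (L.mulVec ξ)) p

lemma ph_sum (L : Matrix S8 S8 ℂ) (g : S8 → T6 → ℂ) (ξ : S8 → ℂ) :
    ∑ a, ph L g a * ∏ i, ξ (a i) = 3 * om0 L g ξ := by
  have h := PP_sum (B := Fin (2 + 1)) ξ (hz L g)
  unfold ph
  rw [h]
  have h2 : (fun (_ : Fin (2 + 1)) (i j : Ix 2) => ∑ s, ξ s * hz L g s i j) =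
      fun _ i j => ew (L.mulVec ξ) i j + wc (fun p => ∑ a, ξ a * g a p) i j := by
    funext _ i j
    exact sum_hz L g ξ i j
  rw [h2, PP_const]
  rfl

lemma pc_sum (L : Matrix S8 S8 ℂ) (p : T6) (ξ : S8 → ℂ) :
    ∑ a, pc L p a * ∏ i, ξ (a i) = YY (ew (L.mulVec ξ)) p := by
  unfold pc YY PP
  simp only [Finset.sum_mul]
  rw [Finset.sum_comm]
  refine Finset.sum_congr rfl fun σ _ => ?_
  simp only [pc3, Fin.cons_zero, Fin.cons_succ, ← sum_ew]
  rw [Finset.prod_univ_sum, Fintype.piFinset_univ, Finset.mul_sum, Finset.mul_sum]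
  refine Finset.sum_congr rfl fun a _ => ?_
  rw [Finset.prod_mul_distrib]
  ring

end Pool.Agent.R735.HA
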