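import Pool.Agent.R735.HA.Alg

/-!
# The double alternating sum of a tensor with a decomposable null bivector as a Gaussian integral,
part 2
-/

set_option autoImplicit false

namespace Pool.Agent.R735.HA

open Finset MeasureTheory Pool.Agent.TH598.GV
open scoped ComplexConjugate ComplexOrder
open Pool.Agent.TH991.J3417 (GM GM_comp PP_comp PP_sum PP_cons_comp PP_slot prod_slot GM_slot
  prod_add_unique conj_PP bil int_sum)

lemma int_YY (L : Matrix S8 S8 ℂ) (p q : T6) :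
    Integrable (fun ξ : S8 → ℂ =>
      YY (ew (L.mulVec ξ)) p * conj (YY (ew (L.mulVec ξ)) q) * (gw ξ : ℂ)) := by
  have h := int_sum (pc L p) (pc L q)
  simp only [pc_sum] at h
  exact h

lemma int_om0 (L : Matrix S8 S8 ℂ) (g : S8 → T6 → ℂ) :
    Integrable (fun ξ : S8 → ℂ => om0 L g ξ * conj (om0 L g ξ) * (gw ξ : ℂ)) := by
  have h := int_sum (ph L g) (ph L g)
  simp only [ph_sum] at h
  have h2 := h.const_mul ((3 : ℂ) * 3)⁻¹
  refine h2.congr (Filter.Eventually.of_forall fun ξ => ?_)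
  have h3 : (starRingEnd ℂ) (3 : ℂ) = 3 := Complex.conj_ofNat 3
  simp only [map_mul, h3]
  field_simp

/-- the integral of the first part -/
lemma wick0 (L : Matrix S8 S8 ℂ) (g : S8 → T6 → ℂ) :
    2 * (Real.pi : ℂ) ^ Fintype.card S8 * ∑ a, ph L g a * conj (ph L g a) =
      3 * ∫ ξ, om0 L g ξ * conj (om0 L g ξ) * (gw ξ : ℂ) := by
  have h := Pool.Agent.TH914.GVC.wick (2 + 1) (ph L g) (ph L g) (ph_sym L g) (ph_sym L g)
  simp only [ph_sum] at h
  have h3 : ∫ ξ, ((3 : ℂ) * om0 L g ξ) * conj ((3 : ℂ) * om0 L g ξ) * (gw ξ : ℂ) =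
      (9 : ℂ) * ∫ ξ, om0 L g ξ * conj (om0 L g ξ) * (gw ξ : ℂ) := by
    rw [← integral_const_mul]
    refine integral_congr_ae (Filter.Eventually.of_forall fun ξ => ?_)
    have h3 : (starRingEnd ℂ) (3 : ℂ) = 3 := Complex.conj_ofNat 3
    simp only [map_mul, h3]
    ring
  rw [h3] at h
  have h4 : ((2 + 1).factorial : ℂ) = 6 := by norm_num [Nat.factorial]
  rw [h4] at h
  linear_combination (-(1 : ℂ) / 3) * h

/-- the integral of the second part -/
lemma wick1 (L : Matrix S8 S8 ℂ) (p q : T6) :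
    2 * (Real.pi : ℂ) ^ Fintype.card S8 * ∑ a, pc L p a * conj (pc L q a) =
      ∫ ξ, YY (ew (L.mulVec ξ)) p * conj (YY (ew (L.mulVec ξ)) q) * (gw ξ : ℂ) := by
  have h := Pool.Agent.TH914.GVC.wick 2 (pc L p) (pc L q) (pc_sym L p) (pc_sym L q)
  simp only [pc_sum] at h
  rw [h]
  have h4 : ((2 : ℕ).factorial : ℂ) = 2 := by norm_num [Nat.factorial]
  rw [h4]
  ring

/-- the complex integrand -/
noncomputable def FC (L : Matrix S8 S8 ℂ) (g : S8 → T6 → ℂ)
    (Γ : Matrix T6 T6 ℂ) (ξ : S8 → ℂ) : ℂ :=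
  om0 L g ξ * conj (om0 L g ξ) +
    ∑ p, ∑ q, Γ p q * YY (ew (L.mulVec ξ)) p * conj (YY (ew (L.mulVec ξ)) q)

lemma re_FC (L : Matrix S8 S8 ℂ) (g : S8 → T6 → ℂ)
    (Γ : Matrix T6 T6 ℂ) (ξ : S8 → ℂ) : (FC L g Γ ξ).re = FZ L g Γ ξ := by
  unfold FC FZ
  rw [Complex.add_re, Complex.mul_conj, Complex.ofReal_re, Complex.normSq_eq_norm_sq]
  rfl

lemma FC_gw (L : Matrix S8 S8 ℂ) (g : S8 → T6 → ℂ)
    (Γ : Matrix T6 T6 ℂ) (ξ : S8 → ℂ) : FC L g Γ ξ * (gw ξ : ℂ) =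
      om0 L g ξ * conj (om0 L g ξ) * (gw ξ : ℂ) + ∑ p, ∑ q, Γ p q *
        (YY (ew (L.mulVec ξ)) p * conj (YY (ew (L.mulVec ξ)) q) * (gw ξ : ℂ)) := by
  unfold FC
  rw [add_mul, Finset.sum_mul]
  congr 1
  refine Finset.sum_congr rfl fun p _ => ?_
  rw [Finset.sum_mul]
  exact Finset.sum_congr rfl fun q _ => by ring

lemma int_FC (L : Matrix S8 S8 ℂ) (g : S8 → T6 → ℂ)
    (Γ : Matrix T6 T6 ℂ) : Integrable (fun ξ => FC L g Γ ξ * (gw ξ : ℂ)) := by
  simp only [FC_gw]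
  exact (int_om0 L g).add (integrable_finsetSum _ fun p _ =>
    integrable_finsetSum _ fun q _ => (int_YY L p q).const_mul _)

lemma integral_FC (L : Matrix S8 S8 ℂ) (g : S8 → T6 → ℂ)
    (Γ : Matrix T6 T6 ℂ) :
    2 * (Real.pi : ℂ) ^ Fintype.card S8 * GG (HZ L g Γ) =
      3 * ∫ ξ, FC L g Γ ξ * (gw ξ : ℂ) := by
  simp only [FC_gw]
  rw [integral_add (int_om0 L g) (integrable_finsetSum _ fun p _ =>
    integrable_finsetSum _ fun q _ => (int_YY L p q).const_mul _),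
    integral_finsetSum _ (fun p _ => integrable_finsetSum _
      fun q _ => (int_YY L p q).const_mul _), mul_add, ← wick0, GG_expand, mul_add]
  congr 1
  rw [mul_left_comm]
  congr 1
  rw [Finset.mul_sum]
  refine Finset.sum_congr rfl fun p _ => ?_
  rw [Finset.mul_sum, integral_finsetSum _ (fun q _ => (int_YY L p q).const_mul _)]
  refine Finset.sum_congr rfl fun q _ => ?_
  rw [integral_const_mul, ← wick1]
  ring

/-- the double alternating sum as a Gaussian integral -/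
theorem alg (L : Matrix S8 S8 ℂ) (g : S8 → T6 → ℂ)
    (Γ : Matrix T6 T6 ℂ) :
    Integrable (fun ξ => FZ L g Γ ξ * gw ξ) ∧
    2 * Real.pi ^ Fintype.card S8 * (GG (HZ L g Γ)).re =
      3 * ∫ ξ, FZ L g Γ ξ * gw ξ := by
  have hre : ∀ ξ, FZ L g Γ ξ * gw ξ = RCLike.re (FC L g Γ ξ * (gw ξ : ℂ)) := fun ξ => by
    rw [← re_FC]
    exact (Complex.re_mul_ofReal _ _).symm
  constructor
  · simp only [hre]
    exact (int_FC L g Γ).re
  · simp only [hre]
    rw [integral_re (int_FC L g Γ)]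
    have h := congrArg Complex.re (integral_FC L g Γ)
    have e1 : 2 * (Real.pi : ℂ) ^ Fintype.card S8 =
        ((2 * Real.pi ^ Fintype.card S8 : ℝ) : ℂ) := by push_cast; rfl
    have e2 : (3 : ℂ) = ((3 : ℝ) : ℂ) := by push_cast; rfl
    rw [e1, e2, Complex.re_ofReal_mul, Complex.re_ofReal_mul] at h
    exact h

end Pool.Agent.R735.HA
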