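import Pool.Agent.R735.HA.Fib

/-!
# The coordinate theorem, positive definite mixed block
-/

set_option autoImplicit false

namespace Pool.Agent.R735.HA

open Finset MeasureTheory Pool.Agent.TH598.GV
open scoped ComplexConjugate ComplexOrder

lemma FZ_cont (L : Matrix S8 S8 ℂ) (g : S8 → T6 → ℂ) (Γ : Matrix T6 T6 ℂ) :
    Continuous (FZ L g Γ) := by
  unfold FZ
  simp only [← pc_sum]
  fun_prop

/-- the components of the bivector of the leaf -/
noncomputable def vp (u : Q4 → ℂ) (p : T6) : ℂ := pv u false p.1 * pv u true p.2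

lemma YY_leaf' (u x : Q4 → ℂ) (p : T6) : YY (ew (zu DD u x)) p =
    (8 * Tt u (1, false) (1, true) * (x (false, false) * x (true, true) -
      x (false, true) * x (true, false))) * (vp u p - vp u (p.2, p.1)) := by
  rw [YY_leaf, Tt_eq]
  unfold vp
  ring

lemma sum_alt (u : Q4 → ℂ) (F : T6 → ℂ) (hF : ∀ i j, F (j, i) = -F (i, j)) :
    ∑ p, F p * (vp u p - vp u (p.2, p.1)) = 2 * ∑ p, F p * vp u p := by
  have h : ∑ p : T6, F p * vp u (p.2, p.1) = -∑ p : T6, F p * vp u p := by
    rw [← Equiv.sum_comp (Equiv.prodComm (K 2) (K 2)), ← Finset.sum_neg_distrib]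
    refine Finset.sum_congr rfl fun p _ => ?_
    obtain ⟨i, j⟩ := p
    change F (j, i) * vp u (i, j) = -(F (i, j) * vp u (i, j))
    rw [hF]
    ring
  simp only [mul_sub, Finset.sum_sub_distrib]
  rw [h]
  ring

/-- the Hermitian form of the Schur complement on the bivector of the leaf -/
noncomputable def Gv (Γ : Matrix T6 T6 ℂ) (u : Q4 → ℂ) : ℝ :=
  (∑ p, ∑ q, Γ p q * vp u p * conj (vp u q)).re

lemma sum_alt2 (u : Q4 → ℂ) (Γ : Matrix T6 T6 ℂ) (h1 : ∀ i j q, Γ (j, i) q = -Γ (i, j) q)
    (h2 : ∀ p i j, Γ p (j, i) = -Γ p (i, j)) :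
    ∑ p, ∑ q, Γ p q * (vp u p - vp u (p.2, p.1)) * conj (vp u q - vp u (q.2, q.1)) =
      4 * ∑ p, ∑ q, Γ p q * vp u p * conj (vp u q) := by
  have e1 : ∀ p, ∑ q, Γ p q * (vp u p - vp u (p.2, p.1)) * conj (vp u q - vp u (q.2, q.1)) =
      (2 * ∑ q, Γ p q * conj (vp u q)) * (vp u p - vp u (p.2, p.1)) := by
    intro p
    have h := congrArg conj (sum_alt u (fun q => conj (Γ p q))
      (fun i j => by simp only [h2 p i j, map_neg]))
    simp only [map_sum, map_mul, Complex.conj_conj, Complex.conj_ofNat] at h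
    rw [← h, Finset.sum_mul]
    exact Finset.sum_congr rfl fun q _ => by ring
  simp only [e1]
  rw [sum_alt u (fun p => 2 * ∑ q, Γ p q * conj (vp u q)) (fun i j => by
    simp only [h1 i j, neg_mul, Finset.sum_neg_distrib, mul_neg])]
  simp only [Finset.mul_sum, Finset.sum_mul]
  exact Finset.sum_congr rfl fun p _ => Finset.sum_congr rfl fun q _ => by ring

/-- The coordinate theorem, positive definite mixed block. -/
theorem coordZ (L : Matrix S8 S8 ℂ) (g : S8 → T6 → ℂ) (Γ : Matrix T6 T6 ℂ) (hL : IsUnit L.det)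
    (hg : ∀ a i j, g a (j, i) = -g a (i, j)) (hΓ1 : ∀ i j q, Γ (j, i) q = -Γ (i, j) q)
    (hΓ2 : ∀ p i j, Γ p (j, i) = -Γ p (i, j))
    (hK : ∀ z w : Ix 2 → ℂ, 0 ≤ (qf (HZ L g Γ) z w).re) : 0 ≤ (GG (HZ L g Γ)).re := by
  obtain ⟨hint, hG⟩ := alg L g Γ
  have key : 0 ≤ ∫ ξ, FZ L g Γ ξ * gw ξ := by
    refine Pool.Agent.TH598.GV.disint L hL DD DD_det (FZ L g Γ) (FZ_cont L g Γ) hint fun u => ?_
    obtain ⟨v, A, B, hv, hr⟩ := riesz L hL (fun a => ∑ p, g a p * vp u p) u
    refine ⟨MvPolynomial.C (16 * Tt u (1, false) (1, true)) *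
      (MvPolynomial.X (false, false) * MvPolynomial.X (true, true) -
        MvPolynomial.X (false, true) * MvPolynomial.X (true, false)), v, Gv Γ u, ?_, fun x => ?_⟩
    · have h1 := hK (zv A (pv u false)) (zv B (pv u true))
      rw [qf_HZ] at h1
      have h2 : ∀ a, bl (hz L g a) (zv A (pv u false)) (zv B (pv u true)) =
          conj ((L⁻¹.mulVec (zu DD u v)) a) := by
        intro a
        rw [← hr a]
        have h3 : hz L g a = fun i j => ew (fun s => L s a) i j +
            ∑ p, g a p * wp p i j := rfl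
        rw [h3, bl_add, bl_sum]
        congr 1
        refine Finset.sum_congr rfl fun p _ => ?_
        rw [bl_wp, zv_em, zv_em]
        rfl
      have h4 : ∀ p, bl (wp p) (zv A (pv u false)) (zv B (pv u true)) = vp u p := by
        intro p
        rw [bl_wp, zv_em, zv_em]
        rfl
      simp only [h2, h4, Complex.norm_conj] at h1
      unfold Gv
      linarith
    · have h2 : L.mulVec (L⁻¹.mulVec (zu DD u x)) = zu DD u x := by
        rw [Matrix.mulVec_mulVec, Matrix.mul_nonsing_inv _ hL, Matrix.one_mulVec]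
      unfold FZ
      rw [h2]
      simp only [YY_leaf']
      obtain ⟨ρ, hρ⟩ : ∃ ρ, ρ = 8 * Tt u (1, false) (1, true) *
        (x (false, false) * x (true, true) - x (false, true) * x (true, false)) := ⟨_, rfl⟩
      rw [← hρ]
      have h4 : ∑ p, (∑ a, (L⁻¹.mulVec (zu DD u x)) a * g a p) *
          (ρ * (vp u p - vp u (p.2, p.1))) =
          (∑ a, (L⁻¹.mulVec (zu DD u x)) a * ∑ p, g a p * vp u p) * (2 * ρ) := by
        have h5 : ∀ a, ∑ p, g a p * vp u p = (∑ p, g a p * (vp u p - vp u (p.2, p.1))) / 2 := by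
          intro a
          rw [sum_alt u (g a) (hg a)]
          ring
        simp only [h5, Finset.sum_mul, Finset.mul_sum, Finset.sum_div]
        rw [Finset.sum_comm]
        refine Finset.sum_congr rfl fun a _ => Finset.sum_congr rfl fun p _ => by ring
      have h5 : ∑ p, ∑ q, Γ p q * (ρ * (vp u p - vp u (p.2, p.1))) *
          conj (ρ * (vp u q - vp u (q.2, q.1))) =
          ((‖2 * ρ‖ ^ 2 : ℝ) : ℂ) * ∑ p, ∑ q, Γ p q * vp u p * conj (vp u q) := by
        have h6 : ((‖2 * ρ‖ ^ 2 : ℝ) : ℂ) = 4 * (ρ * conj ρ) := by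
          rw [← Complex.normSq_eq_norm_sq, ← Complex.mul_conj, map_mul, Complex.conj_ofNat]
          ring
        have h7 := sum_alt2 u Γ hΓ1 hΓ2
        rw [h6]
        have h8 : (4 * (ρ * conj ρ)) * ∑ p, ∑ q, Γ p q * vp u p * conj (vp u q) =
            (ρ * conj ρ) * ∑ p, ∑ q, Γ p q * (vp u p - vp u (p.2, p.1)) *
              conj (vp u q - vp u (q.2, q.1)) := by
          rw [h7]
          ring
        rw [h8]
        simp only [Finset.mul_sum, map_mul]
        exact Finset.sum_congr rfl fun p _ => Finset.sum_congr rfl fun q _ => by ring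
      have h9 : MvPolynomial.eval x (MvPolynomial.C (16 * Tt u (1, false) (1, true)) *
          (MvPolynomial.X (false, false) * MvPolynomial.X (true, true) -
            MvPolynomial.X (false, true) * MvPolynomial.X (true, false))) = 2 * ρ := by
        simp only [map_mul, map_sub, MvPolynomial.eval_C, MvPolynomial.eval_X]
        rw [hρ]
        ring
      rw [h4, h5, h9, hv, norm_mul, mul_pow, Complex.re_ofReal_mul]
      unfold Gv
      ring
  have hc : 0 < 2 * Real.pi ^ Fintype.card S8 := by positivity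
  have h6 : 0 ≤ 2 * Real.pi ^ Fintype.card S8 * (GG (HZ L g Γ)).re := by
    rw [hG]
    positivity
  exact nonneg_of_mul_nonneg_right h6 hc

end Pool.Agent.R735.HA
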