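import Pool.Agent.R735.HA.Frame
import Pool.Agent.TH598.GV.Field2

/-!
# The Hopf sign in dimension six when the bound of the complex sectional curvatures is attained at an
eigenbivector
-/

set_option autoImplicit false

namespace Pool.Agent.R735.HA

open Finset MeasureTheory Module
open Pool.Agent.W666.GB Pool.Agent.TH598.GV
open scoped ComplexConjugate ComplexOrder

section

variable {V : Type} [NormedAddCommGroup V] [InnerProductSpace ℝ V]

/-- The complex bivector `(x + i y) ∧ (u + i v)` is in the kernel of `T`: the real and the imaginary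
part of `T (z ∧ w, a ∧ b)` vanish for all `a`, `b`. -/
def KerCx (T : V → V → V → V → ℝ) (x y u v : V) : Prop :=
  ∀ a b : V, T x u a b - T y v a b = 0 ∧ T x v a b + T y u a b = 0

/-- The bound `-κ` of the complex sectional curvatures of `R` is attained at a decomposable complex
bivector which is an eigenbivector of the curvature operator: `(R + κ) (z ∧ w, ·) = 0` for some
`z = x + i y`, `w = u + i v` with `z ∧ w ≠ 0`. -/
def EigenAt (R : V → V → V → V → ℝ) (κ : ℝ) : Prop :=
  ∃ x y u v : V, 0 < cxs unitR x y u v ∧ KerCx (shiftT R κ) x y u v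

lemma comp_sum {T : V → V → V → V → ℝ} (hT : AlgCurv T) {I : Type} [Fintype I] (f : I → V)
    (x y u v : I → ℝ) (c d : V) :
    ∑ a, ∑ b, ((T (f a) (f b) c d : ℝ) : ℂ) * ((⟨x a, y a⟩ : ℂ) * (⟨u b, v b⟩ : ℂ)) =
      ((T (vc f x) (vc f u) c d - T (vc f y) (vc f v) c d : ℝ) : ℂ) +
      ((T (vc f x) (vc f v) c d + T (vc f y) (vc f u) c d : ℝ) : ℂ) * Complex.I := by
  have h : ∀ p q : I → ℝ, ((T (vc f p) (vc f q) c d : ℝ) : ℂ) =
      ∑ a, ∑ b, ((T (f a) (f b) c d : ℝ) : ℂ) * ((p a : ℂ) * (q b : ℂ)) := by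
    intro p q
    rw [l1 hT f p]
    simp only [l2 hT f q, Finset.mul_sum]
    push_cast
    exact Finset.sum_congr rfl fun a _ => Finset.sum_congr rfl fun b _ => by ring
  push_cast
  rw [h, h, h, h]
  simp only [← Finset.sum_sub_distrib, ← Finset.sum_add_distrib, Finset.sum_mul]
  refine Finset.sum_congr rfl fun a _ => Finset.sum_congr rfl fun b _ => ?_
  have e1 : (⟨x a, y a⟩ : ℂ) = (x a : ℂ) + (y a : ℂ) * Complex.I := by
    apply Complex.ext <;> simp
  have e2 : (⟨u b, v b⟩ : ℂ) = (u b : ℂ) + (v b : ℂ) * Complex.I := by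
    apply Complex.ext <;> simp
  rw [e1, e2]
  linear_combination ((T (f a) (f b) c d : ℝ) : ℂ) * (y a : ℂ) * (v b : ℂ) * Complex.I_sq

/-- **Hopf sign in dimension six, pointwise.** -/
theorem pointA (e : OrthonormalBasis (Fin 3 × Bool) ℝ V) {R : V → V → V → V → ℝ} (hR : AlgCurv R)
    {κ : ℝ} (hκ : 0 ≤ κ) (hC : CxNonpos (shiftT R κ)) (hE : EigenAt R κ) :
    roundGB 3 κ ≤ (-1) ^ 3 * gbc e R := by
  classical
  obtain ⟨x, y, u, v, hpos, hker⟩ := hE
  obtain ⟨Rf, hRf⟩ : ∃ Rf : Fin 3 × Bool → Fin 3 × Bool → Fin 3 × Bool → Fin 3 × Bool → ℝ,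
    Rf = fun i j k l => -R (e i) (e j) (e k) (e l) := ⟨_, rfl⟩
  have hpair : ∀ i j k l, Rf k l i j = Rf i j k l := fun i j k l => by
    simp only [hRf]; rw [hR.pair]
  have halt : ∀ i j k l, Rf j i k l = - Rf i j k l := fun i j k l => by
    simp only [hRf]; rw [hR.anti]
  have hHS : HS (fun a b c d => ((Rf a b c d : ℝ) : ℂ)) := by
    constructor
    · intro i j k l
      rw [Complex.conj_ofReal, hpair]
    · intro i j k l
      rw [halt]; push_cast; ring
  have hU : ∀ z w : Fin 3 × Bool → ℂ, (qf UU z w).re =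
      cxs unitR (vc e fun a => (z a).re) (vc e fun a => (z a).im) (vc e fun a => (w a).re)
        (vc e fun a => (w a).im) := by
    intro z w
    rw [UU_comp e, qf_comp neg_unit_curv e z w]
    simp only [cxs]
    ring
  have hT := shift_curv hR κ
  obtain ⟨T, hTdef⟩ : ∃ T, T = shiftT R κ := ⟨_, rfl⟩
  rw [← hTdef] at hT hC hker
  have hUU : (UU : Fin 3 × Bool → Fin 3 × Bool → Fin 3 × Bool →
      Fin 3 × Bool → ℂ) = fun a b c d => ((unitCurv a b c d : ℝ) : ℂ) := by
    funext a b c d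
    have e2 : ∀ (P : Prop) [Decidable P], (((if P then 1 else 0 : ℝ)) : ℂ) =
        if P then 1 else 0 := by
      intro P _
      split_ifs <;> simp
    simp only [UU, unitCurv]
    rw [Complex.ofReal_sub, Complex.ofReal_mul, Complex.ofReal_mul, e2, e2, e2, e2]
  have hcomp : ∀ i j k l, -T (e i) (e j) (e k) (e l) = Rf i j k l - κ * unitCurv i j k l := by
    intro i j k l
    have hin : ∀ i j, inner ℝ (e i) (e j) = if i = j then (1 : ℝ) else 0 := fun i j => by
      rw [e.inner_eq_ite]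
    simp only [hTdef, shiftT, unitCurv, hin, hRf]
    ring
  have key := quantC (fun a b c d => ((Rf a b c d : ℝ) : ℂ)) hHS κ hκ (fun z w => ?_)
    (fun a => ⟨e.repr x a, e.repr y a⟩) (fun a => ⟨e.repr u a, e.repr v a⟩) ?_ (fun k l => ?_)
  · rw [Pool.Agent.TH828.J3423.GG_re] at key
    have hsum : ∑ σ : Equiv.Perm (Fin 3 × Bool), ∑ τ : Equiv.Perm (Fin 3 × Bool),
          Pool.Agent.W666.GB.sn σ * Pool.Agent.W666.GB.sn τ *
            ∏ b : Fin 3, Rf (σ (b, false)) (σ (b, true)) (τ (b, false)) (τ (b, true)) =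
        (-1) ^ 3 * ∑ σ : Equiv.Perm (Fin 3 × Bool),
          ∑ τ : Equiv.Perm (Fin 3 × Bool),
          ((Equiv.Perm.sign σ : ℤ) : ℝ) * ((Equiv.Perm.sign τ : ℤ) : ℝ) *
            ∏ b : Fin 3, R (e (σ (b, false))) (e (σ (b, true))) (e (τ (b, false)))
              (e (τ (b, true))) := by
      simp only [hRf, Finset.prod_neg, Finset.mul_sum, Finset.card_univ, Fintype.card_fin,
        Pool.Agent.W666.GB.sn]
      refine Finset.sum_congr rfl fun σ _ => Finset.sum_congr rfl fun τ _ => by ring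
    rw [hsum] at key
    have hπ := Real.pi_pos
    have hc : 0 < 1 / ((8 * Real.pi) ^ 3 * ((3 : ℕ).factorial : ℝ)) := by positivity
    have h1 := mul_le_mul_of_nonneg_left key hc.le
    have h2 : 1 / ((8 * Real.pi) ^ 3 * ((3 : ℕ).factorial : ℝ)) *
        (2 ^ 3 * ((2 * 3).factorial : ℝ) * κ ^ 3) = roundGB 3 κ := by
      unfold roundGB
      have h8 : (8 * Real.pi) ^ 3 = 2 ^ 3 * (4 * Real.pi) ^ 3 := by
        rw [← mul_pow]; ring
      rw [h8]
      field_simp
    rw [h2] at h1
    refine h1.trans (le_of_eq ?_)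
    unfold gbc
    ring
  · -- complex sectional curvatures
    have hup : ∀ i j k l : Fin 3 × Bool, unitCurv k l i j = unitCurv i j k l := by
      intro i j k l
      have e1 : ∀ a b : Fin 3 × Bool, (if a = b then (1 : ℝ) else 0) =
          if b = a then 1 else 0 := fun a b => by
        by_cases h : a = b
        · rw [if_pos h, if_pos h.symm]
        · rw [if_neg h, if_neg fun h' => h h'.symm]
      simp only [unitCurv]
      rw [e1 k i, e1 l j, e1 k j, e1 l i]
      ring
    rw [hUU, Pool.Agent.TH828.J3423.re_qf _ hup, Pool.Agent.TH828.J3423.re_qf _ hpair]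
    have hrq : ∀ a b c d : Fin 3 × Bool → ℝ,
        Pool.Agent.TH828.J3423.rq Rf a b c d - κ * Pool.Agent.TH828.J3423.rq unitCurv a b c d =
          -T (vc e a) (vc e b) (vc e c) (vc e d) := by
      intro a b c d
      rw [← rq_eq hT]
      unfold Pool.Agent.TH828.J3423.rq rq
      simp only [hcomp, Finset.mul_sum, ← Finset.sum_sub_distrib]
      refine Finset.sum_congr rfl fun i _ => Finset.sum_congr rfl fun j _ =>
        Finset.sum_congr rfl fun k _ => Finset.sum_congr rfl fun l _ => by ring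
    have h1 := hrq (fun a => (z a).re) (fun a => (w a).re) (fun a => (z a).re) (fun a => (w a).re)
    have h2 := hrq (fun a => (z a).im) (fun a => (w a).im) (fun a => (z a).im) (fun a => (w a).im)
    have h3 := hrq (fun a => (z a).re) (fun a => (w a).im) (fun a => (z a).re) (fun a => (w a).im)
    have h4 := hrq (fun a => (z a).im) (fun a => (w a).re) (fun a => (z a).im) (fun a => (w a).re)
    have h5 := hrq (fun a => (z a).re) (fun a => (w a).re) (fun a => (z a).im) (fun a => (w a).im)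
    have h6 := hrq (fun a => (z a).re) (fun a => (w a).im) (fun a => (z a).im) (fun a => (w a).re)
    have h7 := hC (vc e fun a => (z a).re) (vc e fun a => (z a).im) (vc e fun a => (w a).re)
      (vc e fun a => (w a).im)
    linarith
  · -- the bivector is not zero
    by_contra hcon
    push Not at hcon
    have h1 := Pool.Agent.TH367.J4006.qf_UU (fun a => (⟨e.repr x a, e.repr y a⟩ : ℂ))
      (fun a => (⟨e.repr u a, e.repr v a⟩ : ℂ))
    rw [hU] at h1
    simp only [vc_repr] at h1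
    have h2 : ∑ i : Fin 3 × Bool, ∑ j : Fin 3 × Bool, ‖(⟨e.repr x i, e.repr y i⟩ : ℂ) *
        (⟨e.repr u j, e.repr v j⟩ : ℂ) - (⟨e.repr x j, e.repr y j⟩ : ℂ) *
        (⟨e.repr u i, e.repr v i⟩ : ℂ)‖ ^ 2 = 0 :=
      Finset.sum_eq_zero fun i _ => Finset.sum_eq_zero fun j _ => by
        rw [hcon i j]
        simp
    rw [h2] at h1
    linarith
  · -- the kernel condition
    have h1 := comp_sum hT e (fun a => e.repr x a) (fun a => e.repr y a) (fun a => e.repr u a)
      (fun a => e.repr v a) (e k) (e l)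
    rw [vc_repr, vc_repr, vc_repr, vc_repr, (hker _ _).1, (hker _ _).2] at h1
    rw [hUU]
    have h2 : ∀ a b : Fin 3 × Bool, (((Rf a b k l : ℝ) : ℂ) - (κ : ℂ) *
        ((unitCurv a b k l : ℝ) : ℂ)) = -((T (e a) (e b) (e k) (e l) : ℝ) : ℂ) := by
      intro a b
      have h3 := hcomp a b k l
      have h4 : T (e a) (e b) (e k) (e l) = -(Rf a b k l - κ * unitCurv a b k l) := by linarith
      rw [h4]
      push_cast
      ring
    have h3 : ∀ a b : Fin 3 × Bool, (((Rf a b k l : ℝ) : ℂ) - (κ : ℂ) *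
        ((unitCurv a b k l : ℝ) : ℂ)) * ((⟨e.repr x a, e.repr y a⟩ : ℂ) *
          (⟨e.repr u b, e.repr v b⟩ : ℂ)) = -(((T (e a) (e b) (e k) (e l) : ℝ) : ℂ) *
          ((⟨e.repr x a, e.repr y a⟩ : ℂ) * (⟨e.repr u b, e.repr v b⟩ : ℂ))) := by
      intro a b
      rw [h2]
      ring
    simp only [h3, Finset.sum_neg_distrib]
    rw [h1]
    simp

end

variable {M : Type} [MeasurableSpace M]

/-- the integrated form -/
theorem fieldA (μ : Measure M) (K : CurvField 3 M) (κ : M → ℝ)
    (h : ∀ p, 0 ≤ κ p ∧ CxNonpos (shiftT (K.R p) (κ p)) ∧ EigenAt (K.R p) (κ p)) :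
    0 ≤ (-1) ^ 3 * ∫ p, K.gb p ∂μ ∧
    (Integrable K.gb μ → Integrable (fun p => roundGB 3 (κ p)) μ →
      ∫ p, roundGB 3 (κ p) ∂μ ≤ (-1) ^ 3 * ∫ p, K.gb p ∂μ) := by
  have h0 : ∀ p, roundGB 3 (κ p) ≤ (-1) ^ 3 * K.gb p := by
    intro p
    obtain ⟨h1, h2, h3⟩ := h p
    exact pointA (K.e p) (K.curv p) h1 h2 h3
  have h1 : ∀ p, 0 ≤ (-1) ^ 3 * K.gb p := fun p => (roundGB_nonneg' 3 (h p).1).trans (h0 p)
  refine ⟨?_, fun hi hi' => ?_⟩
  · rw [← integral_const_mul]
    exact integral_nonneg h1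
  · rw [← integral_const_mul]
    exact integral_mono hi' (hi.const_mul _) h0

end Pool.Agent.R735.HA
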