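import Pool.Agent.R735.HA.Frame
import Pool.Agent.R735.HA.Geo
import Pool.Agent.TH598.GV.Field2

/-!
# Complex sectional curvature and one complex hyperplane
-/

set_option autoImplicit false

namespace Pool.Agent.R735.HA

open Finset MeasureTheory Module
open Pool.Agent.W666.GB Pool.Agent.TH598.GV
open scoped ComplexConjugate ComplexOrder

section coord

variable {I : Type} [Fintype I] [DecidableEq I]

/-- a unitary frame adapted to a hyperplane -/
lemma frameH (n : I → ℂ) (hn : ∃ i, n i ≠ 0) (i0 : I) :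
    ∃ M : Matrix I I ℂ,
      (∀ i k, ∑ a, M a i * conj (M a k) = if i = k then 1 else 0) ∧
      ∀ i, i ≠ i0 → ∑ a, n a * M a i = 0 := by
  classical
  obtain ⟨Z, hZ⟩ : ∃ Z : EuclideanSpace ℂ I, ∀ i, Z i = conj (n i) :=
    ⟨WithLp.toLp 2 (fun i => conj (n i)), fun _ => rfl⟩
  have hZ0 : Z ≠ 0 := by
    rintro rfl
    obtain ⟨i, h⟩ := hn
    apply h
    have h1 := hZ i
    simp only [PiLp.zero_apply] at h1
    have h2 := congrArg conj h1
    simpa using h2.symm
  have hZn : (‖Z‖ : ℂ) ≠ 0 := by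
    exact_mod_cast norm_ne_zero_iff.2 hZ0
  obtain ⟨f0, hf0⟩ : ∃ f0 : EuclideanSpace ℂ I, f0 = (‖Z‖ : ℂ)⁻¹ • Z := ⟨_, rfl⟩
  have hf0n : ‖f0‖ = 1 := by
    rw [hf0, norm_smul, norm_inv, Complex.norm_real, norm_norm,
      inv_mul_cancel₀ (norm_ne_zero_iff.2 hZ0)]
  obtain ⟨v, hv⟩ : ∃ v : I → EuclideanSpace ℂ I, v = fun i => if i = i0 then f0 else 0 :=
    ⟨_, rfl⟩
  have hv0 : v i0 = f0 := by rw [hv]; simp
  have hon : Orthonormal ℂ (({i0} : Set I).domRestrict v) := by
    rw [orthonormal_iff_ite]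
    rintro ⟨i, hi⟩ ⟨j, hj⟩
    rw [Set.mem_singleton_iff] at hi hj
    subst hi
    subst hj
    simp only [Set.domRestrict_apply, hv0]
    rw [inner_self_eq_norm_sq_to_K, hf0n]
    simp
  have hc : Module.finrank ℂ (EuclideanSpace ℂ I) = Fintype.card I := finrank_euclideanSpace
  obtain ⟨b, hb⟩ := hon.exists_orthonormalBasis_extension_of_card_eq hc
  have hb0 : b i0 = f0 := by rw [hb _ (by simp), hv0]
  refine ⟨fun a i => b i a, fun i k => ?_, fun i hi => ?_⟩
  · have h := orthonormal_iff_ite.1 b.orthonormal k i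
    rw [PiLp.inner_apply] at h
    simp only [RCLike.inner_apply] at h
    rw [h]
    simp only [eq_comm (a := k)]
  · have h := orthonormal_iff_ite.1 b.orthonormal i0 i
    rw [if_neg (Ne.symm hi), hb0, hf0, inner_smul_left, PiLp.inner_apply] at h
    have h1 : conj ((‖Z‖ : ℂ)⁻¹) ≠ 0 := by
      rw [Ne, map_eq_zero]
      exact inv_ne_zero hZn
    have h2 := (mul_eq_zero.1 h).resolve_left h1
    rw [← h2]
    refine Finset.sum_congr rfl fun a _ => ?_
    simp only [RCLike.inner_apply, hZ, Complex.conj_conj]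
    ring

end coord

/-- **Quantitative coordinate theorem for a complex hyperplane.** -/
theorem strongC {m : ℕ}
    (H : Fin m × Bool → Fin m × Bool → Fin m × Bool → Fin m × Bool → ℂ) (hH : HS H)
    (n : Fin m × Bool → ℂ) (hn : ∃ i, n i ≠ 0)
    (hB : ∀ (z w : (Fin m × Bool) × (Fin m × Bool) → Fin m × Bool → ℂ),
      (∀ q, ∑ a, n a * z q a = 0) → (∀ q, ∑ a, n a * w q a = 0) →
      0 ≤ (Sf H (fun a b => ∑ q, z q a * w q b) (fun a b => ∑ q, z q a * w q b)).re)
    (δ : ℝ) (hδ : 0 ≤ δ) (hK : ∀ z w : Fin m × Bool → ℂ, δ * (qf UU z w).re ≤ (qf H z w).re) :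
    2 ^ m * ((2 * m).factorial : ℝ) * δ ^ m ≤ (GG H).re := by
  obtain ⟨i0, hi0⟩ := hn
  obtain ⟨M, hM, hMn⟩ := frameH n ⟨i0, hi0⟩ i0
  have hU : Hc M UU = UU := Hc_UU M hM
  have hq : ∀ z w : Fin m × Bool → ℂ, (qf UU (M.mulVec z) (M.mulVec w)) = qf UU z w := by
    intro z w
    rw [← qf_Hc, hU]
  have key := strong_holds (Hc M H) (Hc_HS M hH) i0 ?_ δ hδ (fun z w => ?_)
  · have hdet : M.det * conj M.det = 1 := by
      have h1 : M.transpose * M.map conj = 1 := by
        ext i k
        rw [Matrix.mul_apply, Matrix.one_apply, ← hM i k]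
        rfl
      have h2 := congrArg Matrix.det h1
      rw [Matrix.det_mul, Matrix.det_transpose, Matrix.det_one] at h2
      have h5 : (M.map conj).det = conj M.det := by
        rw [RingHom.map_det]
        rfl
      rw [h5] at h2
      exact h2
    rw [GG_trans, hdet, one_mul] at key
    exact key
  · intro p hp1 hp2
    have h1 : ∑ i, ∑ j, ∑ i', ∑ j', Hc M H i j i' j' * (p i j * conj (p i' j')) =
        Sf (Hc M H) p p := rfl
    rw [h1, Sf_Hc]
    have h2 := hB (fun q a => if q.1 = i0 ∨ q.2 = i0 then 0 else p q.1 q.2 * M a q.1)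
      (fun q a => if q.1 = i0 ∨ q.2 = i0 then 0 else M a q.2) (fun q => ?_) (fun q => ?_)
    · have h3 : (fun a b => ∑ q : (Fin m × Bool) × (Fin m × Bool),
          (if q.1 = i0 ∨ q.2 = i0 then 0 else p q.1 q.2 * M a q.1) *
            (if q.1 = i0 ∨ q.2 = i0 then 0 else M b q.2)) =
          fun a b => ∑ x : (Fin m × Bool) × (Fin m × Bool), p x.1 x.2 * (M a x.1 * M b x.2) := by
        funext a b
        refine Finset.sum_congr rfl fun q _ => ?_
        by_cases h : q.1 = i0 ∨ q.2 = i0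
        · rw [if_pos h, if_pos h]
          rcases h with h | h
          · rw [h, hp1]; ring
          · rw [h, hp2]; ring
        · rw [if_neg h, if_neg h]
          ring
      rw [h3] at h2
      exact h2
    · by_cases h : q.1 = i0 ∨ q.2 = i0
      · simp only [if_pos h, mul_zero, Finset.sum_const_zero]
      · simp only [if_neg h]
        have h4 := hMn q.1 (fun h' => h (Or.inl h'))
        rw [← mul_zero (p q.1 q.2), ← h4, Finset.mul_sum]
        exact Finset.sum_congr rfl fun a _ => by ring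
    · by_cases h : q.1 = i0 ∨ q.2 = i0
      · simp only [if_pos h, mul_zero, Finset.sum_const_zero]
      · simp only [if_neg h]
        exact hMn q.2 (fun h' => h (Or.inr h'))
  · rw [qf_Hc, ← hq]
    exact hK _ _

end Pool.Agent.R735.HA
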