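import Pool.Agent.R735.HA.CoordZ
import Pool.Agent.TH73.J3420

/-!
# Normal form of a tensor with a decomposable null bivector
-/

set_option autoImplicit false

namespace Pool.Agent.R735.HA

open Finset MeasureTheory Pool.Agent.TH598.GV
open scoped ComplexConjugate ComplexOrder

/-- the pair of indices of a mixed coordinate -/
def pz (s : S8) : Ix 2 × Ix 2 := ((0, (sx s).1), em (sx s).2)

/-- the mixed block -/
noncomputable def BZ (H : Ix 2 → Ix 2 → Ix 2 → Ix 2 → ℂ) : Matrix S8 S8 ℂ :=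
  fun s t => H (pz s).1 (pz s).2 (pz t).1 (pz t).2

lemma em_inj {a b : K 2} (h : (em a : Ix 2) = em b) : a = b :=
  Pool.Agent.TH263.J4005.em_inj h

lemma sum_sx (F : Bool × K 2 → ℂ) : ∑ s, F (sx s) = ∑ α, ∑ j, F (α, j) := by
  rw [Fintype.sum_sum_type, Fintype.sum_prod_type, Fintype.sum_prod_type]
  simp only [Fintype.sum_bool, Fintype.sum_prod_type, Fin.sum_univ_two]
  simp only [sx]
  ring

lemma BS_em (s : S8) (c : Bool) (b : K 2) : BS s (0, c) (em b) =
    if sx s = (c, b) then 1 else 0 := by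
  unfold BS
  rw [if_neg (em_ne b _), zero_mul, sub_zero]
  obtain ⟨⟨α, j⟩, hs⟩ : ∃ q : Bool × K 2, sx s = q := ⟨_, rfl⟩
  rw [hs]
  by_cases h1 : c = α
  · by_cases h2 : b = j
    · simp [h1, h2]
    · have h3 : ¬ (em b : Ix 2) = em j := fun h => h2 (em_inj h)
      simp [h1, h3, Ne.symm h2]
  · have h3 : ¬ ((0, c) : Ix 2) = (0, α) := fun h => h1 (congrArg Prod.snd h)
    simp [h3, Ne.symm h1]

lemma BS_swap (s : S8) (i j : Ix 2) : BS s j i = -BS s i j := by
  unfold BS
  ring

lemma wp_em (p : T6) (a b : K 2) : wp p (em a) (em b) = if p = (a, b) then 1 else 0 := by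
  obtain ⟨p1, p2⟩ := p
  unfold wp
  by_cases h1 : a = p1
  · by_cases h2 : b = p2
    · simp [h1, h2]
    · have h3 : ¬ (em b : Ix 2) = em p2 := fun h => h2 (em_inj h)
      simp [h1, h3, Ne.symm h2]
  · have h3 : ¬ (em a : Ix 2) = em p1 := fun h => h1 (em_inj h)
    simp [h3, Ne.symm h1]

lemma em_or (i : Ix 2) : (∃ c, i = (0, c)) ∨ ∃ a : K 2, i = (Pool.Agent.TH598.GV.em a : Ix 2) :=
  Pool.Agent.TH263.J4005.em_or i

lemma sum_pz (c : Bool) (b : K 2) (F : Ix 2 → Ix 2 → ℂ) :
    ∑ s, F (pz s).1 (pz s).2 * (if sx s = (c, b) then 1 else 0) = F (0, c) (em b) := by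
  have h := sum_sx (fun q => F (0, q.1) (em q.2) * (if q = (c, b) then 1 else 0))
  change ∑ s, F (0, (sx s).1) (em (sx s).2) * (if sx s = (c, b) then 1 else 0) = _
  rw [h, Finset.sum_eq_single c, Finset.sum_eq_single b]
  · simp
  · intro j _ hj
    rw [if_neg (fun h => hj (congrArg Prod.snd h)), mul_zero]
  · simp
  · intro α _ hα
    refine Finset.sum_eq_zero fun j _ => ?_
    rw [if_neg (fun h => hα (congrArg Prod.fst h)), mul_zero]
  · simp

/-- alternating matrices in coordinates -/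
lemma dec2 (M : Ix 2 → Ix 2 → ℂ) (hM : ∀ i j, M j i = -M i j)
    (h0 : M (0, false) (0, true) = 0) (i j : Ix 2) :
    M i j = ∑ s, M (pz s).1 (pz s).2 * BS s i j +
      ∑ p : T6, M (em p.1) (em p.2) * wp p i j := by
  have hd : ∀ i, M i i = 0 := by
    intro i
    have h := hM i i
    have h2 : (2 : ℂ) * M i i = 0 := by linear_combination h
    rcases mul_eq_zero.1 h2 with h3 | h3
    · norm_num at h3
    · exact h3
  rcases em_or i with ⟨c, rfl⟩ | ⟨a, rfl⟩
  · have hw : ∑ p : T6, M (em p.1) (em p.2) * wp p (0, c) j = 0 :=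
      Finset.sum_eq_zero fun p _ => by rw [wp_left, mul_zero]
    rw [hw, add_zero]
    rcases em_or j with ⟨d, rfl⟩ | ⟨b, rfl⟩
    · have hs : ∑ s, M (pz s).1 (pz s).2 * BS s (0, c) (0, d) = 0 :=
        Finset.sum_eq_zero fun p _ => by rw [BS_zero, mul_zero]
      rw [hs]
      cases c <;> cases d
      · exact hd _
      · exact h0
      · rw [hM, h0, neg_zero]
      · exact hd _
    · simp only [BS_em]
      rw [sum_pz]
  · rcases em_or j with ⟨d, rfl⟩ | ⟨b, rfl⟩
    · have hw : ∑ p : T6, M (em p.1) (em p.2) * wp p (em a) (0, d) = 0 :=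
        Finset.sum_eq_zero fun p _ => by rw [wp_right, mul_zero]
      rw [hw, add_zero]
      have hs : ∑ s, M (pz s).1 (pz s).2 * BS s (em a) (0, d) =
          -∑ s, M (pz s).1 (pz s).2 * (if sx s = (d, a) then 1 else 0) := by
        rw [← Finset.sum_neg_distrib]
        refine Finset.sum_congr rfl fun s _ => ?_
        rw [BS_swap, BS_em]
        ring
      rw [hs, sum_pz, hM]
    · have hs : ∑ s, M (pz s).1 (pz s).2 * BS s (em a) (em b) = 0 :=
        Finset.sum_eq_zero fun s _ => by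
          rw [BS_free s (fun c => em_ne a c) (fun c => em_ne b c), mul_zero]
      rw [hs, zero_add]
      simp only [wp_em]
      rw [Finset.sum_eq_single (a, b)]
      · simp
      · intro p _ hp
        rw [if_neg hp, mul_zero]
      · simp

lemma BS_real (s : S8) (i j : Ix 2) : conj (BS s i j) = BS s i j := by
  unfold BS
  simp only [map_sub, map_mul, apply_ite (starRingEnd ℂ), map_one, map_zero]

lemma herm_alt {H : Ix 2 → Ix 2 → Ix 2 → Ix 2 → ℂ} (hH : HS H) (i j k l : Ix 2) :
    H i j l k = -H i j k l := by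
  rw [hH.herm l k i j, hH.herm k l i j, hH.alt k l i j, map_neg]

/-- normal form -/
theorem dec (H : Ix 2 → Ix 2 → Ix 2 → Ix 2 → ℂ) (hH : HS H)
    (h0 : ∀ k l, H (0, false) (0, true) k l = 0) (hB : (BZ H).PosDef) :
    ∃ (L : Matrix S8 S8 ℂ) (g : S8 → T6 → ℂ) (Γ : Matrix T6 T6 ℂ),
      IsUnit L.det ∧ (∀ a i j, g a (j, i) = -g a (i, j)) ∧
      (∀ i j q, Γ (j, i) q = -Γ (i, j) q) ∧ (∀ p i j, Γ p (j, i) = -Γ p (i, j)) ∧
      H = HZ L g Γ := by
  classical
  obtain ⟨Bm, hBm⟩ := Pool.Agent.TH73.J3420.exists_sq hB.posSemidef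
  obtain ⟨L, hLdef⟩ : ∃ L : Matrix S8 S8 ℂ, L = Bm.conjTranspose := ⟨_, rfl⟩
  have hLL : BZ H = L * L.conjTranspose := by
    rw [hLdef, Matrix.conjTranspose_conjTranspose]
    exact hBm
  have hdet : IsUnit L.det := by
    have h1 : IsUnit (BZ H).det := by
      rw [← Matrix.isUnit_iff_isUnit_det]
      exact hB.isUnit
    rw [hLL, Matrix.det_mul] at h1
    exact isUnit_of_mul_isUnit_left h1
  have hdet' : IsUnit L.conjTranspose.det := by
    rw [Matrix.det_conjTranspose]
    exact hdet.star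
  obtain ⟨C, hC⟩ : ∃ C : Matrix T6 S8 ℂ, ∀ p t, C p t = H (em p.1) (em p.2) (pz t).1 (pz t).2 :=
    ⟨_, fun _ _ => rfl⟩
  obtain ⟨G, hG⟩ : ∃ G : Matrix T6 S8 ℂ, G = C * (L.conjTranspose)⁻¹ := ⟨_, rfl⟩
  have hGC : G * L.conjTranspose = C := by
    rw [hG, Matrix.mul_assoc, Matrix.nonsing_inv_mul _ hdet', Matrix.mul_one]
  have hg : ∀ p t, ∑ a, G p a * conj (L t a) = H (em p.1) (em p.2) (pz t).1 (pz t).2 := by
    intro p t
    have := congrFun (congrFun hGC p) t
    rw [Matrix.mul_apply] at this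
    rw [← hC]
    exact this
  have hLs : ∀ s t, ∑ a, L s a * conj (L t a) = H (pz s).1 (pz s).2 (pz t).1 (pz t).2 := by
    intro s t
    have := congrFun (congrFun hLL s) t
    rw [Matrix.mul_apply] at this
    exact this.symm
  have hg' : ∀ s q, ∑ a, L s a * conj (G q a) = H (pz s).1 (pz s).2 (em q.1) (em q.2) := by
    intro s q
    rw [hH.herm (em q.1) (em q.2) (pz s).1 (pz s).2, ← hg q s, map_sum]
    refine Finset.sum_congr rfl fun a _ => ?_
    rw [map_mul, Complex.conj_conj]
    ring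
  have hGalt : ∀ i j a, G (j, i) a = -G (i, j) a := by
    intro i j a
    rw [hG, Matrix.mul_apply, Matrix.mul_apply, ← Finset.sum_neg_distrib]
    refine Finset.sum_congr rfl fun t _ => ?_
    rw [hC, hC]
    change H (em j) (em i) _ _ * _ = -(H (em i) (em j) _ _ * _)
    rw [hH.alt]
    ring
  refine ⟨L, fun a p => G p a, fun p q => H (em p.1) (em p.2) (em q.1) (em q.2) -
    ∑ a, G p a * conj (G q a), hdet, fun a i j => hGalt i j a, ?_, ?_, ?_⟩
  · intro i j q
    change H (em j) (em i) _ _ - ∑ a, G (j, i) a * conj (G q a) = -(H (em i) (em j) _ _ -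
      ∑ a, G (i, j) a * conj (G q a))
    rw [hH.alt]
    simp only [hGalt i j, neg_mul, Finset.sum_neg_distrib]
    ring
  · intro p i j
    change H _ _ (em j) (em i) - ∑ a, G p a * conj (G (j, i) a) = -(H _ _ (em i) (em j) -
      ∑ a, G p a * conj (G (i, j) a))
    rw [herm_alt hH]
    simp only [hGalt i j, map_neg, mul_neg, Finset.sum_neg_distrib]
    ring
  funext i j i' j'
  have h0' : ∀ x y, H x y (0, false) (0, true) = 0 := by
    intro x y
    rw [hH.herm (0, false) (0, true) x y, h0, map_zero]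
  have hcl : ∀ x y i' j', H x y i' j' = ∑ t, H x y (pz t).1 (pz t).2 * BS t i' j'
      + ∑ q : T6, H x y (em q.1) (em q.2) * wp q i' j' := by
    intro x y i' j'
    exact dec2 (fun i' j' => H x y i' j') (fun i j => herm_alt hH x y i j) (h0' x y) i' j'
  have hcr : H i j i' j' = ∑ s, H (pz s).1 (pz s).2 i' j' * BS s i j
      + ∑ p : T6, H (em p.1) (em p.2) i' j' * wp p i j :=
    dec2 (fun i j => H i j i' j') (fun i j => hH.alt i j i' j') (h0 i' j') i j
  have hh1 : ∀ a, hz L (fun a p => G p a) a i j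
      = ∑ s, L s a * BS s i j + ∑ p, G p a * wp p i j := fun a => rfl
  have hh2 : ∀ a, conj (hz L (fun a p => G p a) a i' j')
      = ∑ s, conj (L s a) * BS s i' j' + ∑ p, conj (G p a) * wp p i' j' := by
    intro a
    change conj (∑ s, L s a * BS s i' j' + ∑ p, G p a * wp p i' j') = _
    rw [map_add, map_sum, map_sum]
    congr 1
    · refine Finset.sum_congr rfl fun s _ => by rw [map_mul, BS_real]
    · refine Finset.sum_congr rfl fun s _ => by rw [map_mul, conj_wp]
  unfold HZ RZ SZ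
  rw [hcr]
  have hsum : ∑ a, hz L (fun a p => G p a) a i j * conj (hz L (fun a p => G p a) a i' j')
      = ∑ s, ∑ t, H (pz s).1 (pz s).2 (pz t).1 (pz t).2 * BS s i j * BS t i' j'
        + ∑ s, ∑ q : T6, H (pz s).1 (pz s).2 (em q.1) (em q.2) * BS s i j * wp q i' j'
        + ∑ p : T6, ∑ t, H (em p.1) (em p.2) (pz t).1 (pz t).2 * wp p i j * BS t i' j'
        + ∑ p : T6, ∑ q, (∑ a, G p a * conj (G q a)) * wp p i j * wp q i' j' := by
    have h1 : ∀ a, hz L (fun a p => G p a) a i j * conj (hz L (fun a p => G p a) a i' j')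
        = (∑ s, L s a * BS s i j) * (∑ t, conj (L t a) * BS t i' j')
          + (∑ s, L s a * BS s i j) * (∑ q, conj (G q a) * wp q i' j')
          + (∑ p, G p a * wp p i j) * (∑ t, conj (L t a) * BS t i' j')
          + (∑ p, G p a * wp p i j) * (∑ q, conj (G q a) * wp q i' j') := by
      intro a
      rw [hh1, hh2]
      ring
    rw [Finset.sum_congr rfl fun a _ => h1 a, Finset.sum_add_distrib, Finset.sum_add_distrib,
      Finset.sum_add_distrib, Pool.Agent.TH73.J3420.bil (fun s a => L s a)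
        (fun t a => conj (L t a)),
      Pool.Agent.TH73.J3420.bil (fun s a => L s a) (fun q a => conj (G q a)),
      Pool.Agent.TH73.J3420.bil (fun p a => G p a) (fun t a => conj (L t a)),
      Pool.Agent.TH73.J3420.bil (fun p a => G p a) (fun q a => conj (G q a))]
    congr 1
    congr 1
    congr 1
    · exact Finset.sum_congr rfl fun s _ => Finset.sum_congr rfl fun t _ => by rw [hLs]
    · exact Finset.sum_congr rfl fun s _ => Finset.sum_congr rfl fun t _ => by rw [hg']
    · exact Finset.sum_congr rfl fun s _ => Finset.sum_congr rfl fun t _ => by rw [hg]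
  rw [hsum]
  have e1 : ∑ p : T6, H (em p.1) (em p.2) i' j' * wp p i j
      = ∑ p : T6, ∑ t, H (em p.1) (em p.2) (pz t).1 (pz t).2 * wp p i j * BS t i' j'
        + ∑ p : T6, ∑ q : T6, H (em p.1) (em p.2) (em q.1) (em q.2) * wp p i j * wp q i' j' := by
    rw [← Finset.sum_add_distrib]
    refine Finset.sum_congr rfl fun p _ => ?_
    rw [hcl (em p.1) (em p.2) i' j', add_mul, Finset.sum_mul, Finset.sum_mul]
    congr 1
    · exact Finset.sum_congr rfl fun q _ => by ring
    · exact Finset.sum_congr rfl fun q _ => by ring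
  have e2 : ∑ s, H (pz s).1 (pz s).2 i' j' * BS s i j
      = ∑ s, ∑ t, H (pz s).1 (pz s).2 (pz t).1 (pz t).2 * BS s i j * BS t i' j'
        + ∑ s, ∑ q : T6, H (pz s).1 (pz s).2 (em q.1) (em q.2) * BS s i j * wp q i' j' := by
    rw [← Finset.sum_add_distrib]
    refine Finset.sum_congr rfl fun p _ => ?_
    rw [hcl (pz p).1 (pz p).2 i' j', add_mul, Finset.sum_mul, Finset.sum_mul]
    congr 1
    · exact Finset.sum_congr rfl fun q _ => by ring
    · exact Finset.sum_congr rfl fun q _ => by ring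
  have e3 : ∑ p : T6, ∑ q : T6, (H (em p.1) (em p.2) (em q.1) (em q.2) -
        ∑ a, G p a * conj (G q a)) * wp p i j * wp q i' j'
      = ∑ p : T6, ∑ q : T6, H (em p.1) (em p.2) (em q.1) (em q.2) * wp p i j * wp q i' j'
        - ∑ p : T6, ∑ q : T6, (∑ a, G p a * conj (G q a)) * wp p i j * wp q i' j' := by
    rw [← Finset.sum_sub_distrib]
    refine Finset.sum_congr rfl fun p _ => ?_
    rw [← Finset.sum_sub_distrib]
    exact Finset.sum_congr rfl fun q _ => by ring
  rw [e1, e2, e3]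
  ring

end Pool.Agent.R735.HA
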