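import Pool.Agent.TH598.GV.Defs
import Pool.Agent.TH991.J3417
import Pool.Agent.TH263.J4005

/-!
# Tensors in dimension six with a decomposable null bivector: definitions
-/

set_option autoImplicit false

namespace Pool.Agent.R735.HA

open Finset MeasureTheory Pool.Agent.TH598.GV
open scoped ComplexConjugate

/-- four indices -/
abbrev Q4 : Type := Bool × Bool

/-- the eight coordinates of the two-forms which mix the plane of the null bivector with the
complement -/
abbrev S8 : Type := Q4 ⊕ Q4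

/-- pairs of indices of the complement -/
abbrev T6 : Type := K 2 × K 2

/-- the pair of indices of a coordinate -/
def sx : S8 → Bool × K 2
  | Sum.inl q => (q.1, (1, q.2))
  | Sum.inr q => (q.1, (0, q.2))

/-- elementary alternating matrices which mix -/
noncomputable def BS (s : S8) : Ix 2 → Ix 2 → ℂ := fun i j =>
  (if i = (0, (sx s).1) then 1 else 0) * (if j = em (sx s).2 then 1 else 0) -
    (if j = (0, (sx s).1) then 1 else 0) * (if i = em (sx s).2 then 1 else 0)

/-- elementary matrices of the complement -/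
noncomputable def wp (p : T6) : Ix 2 → Ix 2 → ℂ := fun i j =>
  (if i = em p.1 then 1 else 0) * (if j = em p.2 then 1 else 0)

/-- the mixed matrix with coordinates `z` -/
noncomputable def ew (z : S8 → ℂ) : Ix 2 → Ix 2 → ℂ := fun i j => ∑ s, z s * BS s i j

/-- the matrix of the complement with coordinates `γ` -/
noncomputable def wc (γ : T6 → ℂ) : Ix 2 → Ix 2 → ℂ := fun i j => ∑ p, γ p * wp p i j

/-- the column `a` of `L` plus the part in the complement -/
noncomputable def hz (L : Matrix S8 S8 ℂ) (g : S8 → T6 → ℂ) (a : S8) : Ix 2 → Ix 2 → ℂ :=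
  fun i j => ew (fun s => L s a) i j + wc (g a) i j

/-- the Gaussian part -/
noncomputable def RZ (L : Matrix S8 S8 ℂ) (g : S8 → T6 → ℂ) :
    Ix 2 → Ix 2 → Ix 2 → Ix 2 → ℂ := fun i j i' j' =>
  ∑ a, hz L g a i j * conj (hz L g a i' j')

/-- the Schur complement part -/
noncomputable def SZ (Γ : Matrix T6 T6 ℂ) :
    Ix 2 → Ix 2 → Ix 2 → Ix 2 → ℂ := fun i j i' j' =>
  ∑ p, ∑ q, Γ p q * wp p i j * wp q i' j'

/-- the tensor with Gaussian part `L, g` and Schur complement `Γ` -/
noncomputable def HZ (L : Matrix S8 S8 ℂ) (g : S8 → T6 → ℂ) (Γ : Matrix T6 T6 ℂ) :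
    Ix 2 → Ix 2 → Ix 2 → Ix 2 → ℂ := fun i j i' j' =>
  RZ L g i j i' j' + SZ Γ i j i' j'

/-- the components of the square of a mixed two-form -/
noncomputable def YY (β : Ix 2 → Ix 2 → ℂ) (p : T6) : ℂ :=
  PP (B := Fin (2 + 1)) (Fin.cons (wp p) (fun _ => β))

/-- the integrand -/
noncomputable def FZ (L : Matrix S8 S8 ℂ) (g : S8 → T6 → ℂ) (Γ : Matrix T6 T6 ℂ)
    (ξ : S8 → ℂ) : ℝ :=
  ‖∑ p, (∑ a, ξ a * g a p) * YY (ew (L.mulVec ξ)) p‖ ^ 2 +
    (∑ p, ∑ q, Γ p q * YY (ew (L.mulVec ξ)) p * conj (YY (ew (L.mulVec ξ)) q)).re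

end Pool.Agent.R735.HA
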