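import Pool.Agent.R735.HA.Leaf
import Pool.Agent.TH822.J3419
import Pool.Agent.TH89.J3416
import Pool.Agent.TH928.J3413
import Pool.Agent.TH367.J4006

/-!
# The inequality on the leaves and the coordinate theorem with a positive definite mixed block
-/

set_option autoImplicit false

namespace Pool.Agent.R735.HA

open Finset MeasureTheory Pool.Agent.TH598.GV
open scoped ComplexConjugate ComplexOrder

/-- the value of a matrix on two vectors -/
noncomputable def bl {I : Type} [Fintype I] (M : I → I → ℂ) (z w : I → ℂ) : ℂ :=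
  ∑ i, ∑ j, M i j * (z i * w j)

lemma bl_conj {I : Type} [Fintype I] (M : I → I → ℂ) (z w : I → ℂ) :
    ∑ i, ∑ j, conj (M i j) * (conj (z i) * conj (w j)) = conj (bl M z w) := by
  unfold bl
  simp only [map_sum, map_mul]

lemma qf_rank {I A : Type} [Fintype I] [Fintype A] (c : A → ℂ) (M N : A → I → I → ℂ)
    (z w : I → ℂ) :
    qf (fun i j i' j' => ∑ a, c a * M a i j * conj (N a i' j')) z w =
      ∑ a, c a * bl (M a) z w * conj (bl (N a) z w) := by
  have h : ∀ a, c a * bl (M a) z w * conj (bl (N a) z w) = ∑ i, ∑ j, ∑ i', ∑ j',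
      c a * M a i j * conj (N a i' j') * (z i * w j * conj (z i') * conj (w j')) := by
    intro a
    rw [← bl_conj, mul_assoc]
    unfold bl
    rw [← Pool.Agent.TH367.J4006.mul4, Finset.mul_sum]
    refine Finset.sum_congr rfl fun i _ => ?_
    rw [Finset.mul_sum]
    refine Finset.sum_congr rfl fun j _ => ?_
    rw [Finset.mul_sum]
    refine Finset.sum_congr rfl fun i' _ => ?_
    rw [Finset.mul_sum]
    exact Finset.sum_congr rfl fun j' _ => by ring
  rw [Finset.sum_congr rfl fun a _ => h a]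
  unfold qf
  simp only [Finset.sum_mul]
  rw [← Pool.Agent.TH367.J4006.swap4 (fun a i j i' j' =>
    c a * M a i j * conj (N a i' j') * (z i * w j * conj (z i') * conj (w j')))]

lemma bl_wp (p : T6) (z w : Ix 2 → ℂ) : bl (wp p) z w = z (em p.1) * w (em p.2) := by
  unfold bl wp
  rw [Finset.sum_eq_single (em p.1), Finset.sum_eq_single (em p.2)]
  · simp
  · intro j _ hj
    simp [hj]
  · simp
  · intro i _ hi
    simp [hi]
  · simp

lemma bl_BS (s : S8) (z w : Ix 2 → ℂ) : bl (BS s) z w =
    z (0, (sx s).1) * w (em (sx s).2) - w (0, (sx s).1) * z (em (sx s).2) := by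
  unfold bl BS
  simp only [sub_mul, Finset.sum_sub_distrib]
  congr 1
  · rw [Finset.sum_eq_single (0, (sx s).1), Finset.sum_eq_single (em (sx s).2)]
    · simp
    · intro j _ hj
      simp [hj]
    · simp
    · intro i _ hi
      simp [hi]
    · simp
  · rw [Finset.sum_eq_single (em (sx s).2), Finset.sum_eq_single (0, (sx s).1)]
    · simp [mul_comm]
    · intro j _ hj
      simp [hj]
    · simp
    · intro i _ hi
      simp [hi]
    · simp

lemma bl_sum {I A : Type} [Fintype I] [Fintype A] (c : A → ℂ) (M : A → I → I → ℂ)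
    (z w : I → ℂ) : bl (fun i j => ∑ a, c a * M a i j) z w = ∑ a, c a * bl (M a) z w := by
  unfold bl
  simp only [Finset.sum_mul, Finset.mul_sum]
  have h1 : ∀ i, ∑ j, ∑ a, c a * M a i j * (z i * w j) =
      ∑ a, ∑ j, c a * M a i j * (z i * w j) := fun _ => Finset.sum_comm
  simp only [h1]
  rw [Finset.sum_comm]
  refine Finset.sum_congr rfl fun a _ => Finset.sum_congr rfl fun i _ =>
    Finset.sum_congr rfl fun j _ => by ring

lemma bl_add {I : Type} [Fintype I] (M N : I → I → ℂ)
    (z w : I → ℂ) : bl (fun i j => M i j + N i j) z w = bl M z w + bl N z w := by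
  unfold bl
  simp only [add_mul, Finset.sum_add_distrib]

/-- the vector with components `A` in the plane and `y` in the complement -/
def zv (A : Bool → ℂ) (y : K 2 → ℂ) : Ix 2 → ℂ := fun i =>
  Fin.cases (motive := fun _ => ℂ) (A i.2) (fun r => y (r, i.2)) i.1

lemma zv_0 (A : Bool → ℂ) (y : K 2 → ℂ) (c : Bool) : zv A y (0, c) = A c := rfl

lemma zv_em (A : Bool → ℂ) (y : K 2 → ℂ) (j : K 2) : zv A y (em j) = y j := rfl

lemma qf_HZ (L : Matrix S8 S8 ℂ) (g : S8 → T6 → ℂ) (Γ : Matrix T6 T6 ℂ) (z w : Ix 2 → ℂ) :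
    (qf (HZ L g Γ) z w).re = ∑ a, ‖bl (hz L g a) z w‖ ^ 2 +
      (∑ p, ∑ q, Γ p q * bl (wp p) z w * conj (bl (wp q) z w)).re := by
  have h1 : qf (HZ L g Γ) z w = qf (RZ L g) z w + qf (SZ Γ) z w := by
    unfold qf HZ
    simp only [add_mul, Finset.sum_add_distrib]
  have h2 : RZ L g = fun i j i' j' => ∑ a, (1 : ℂ) * hz L g a i j * conj (hz L g a i' j') := by
    funext i j i' j'
    unfold RZ
    exact Finset.sum_congr rfl fun a _ => by rw [one_mul]
  have h3 : SZ Γ = fun i j i' j' => ∑ a : T6 × T6, Γ a.1 a.2 * wp a.1 i j *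
      conj (wp a.2 i' j') := by
    funext i j i' j'
    unfold SZ
    rw [Fintype.sum_prod_type (α₁ := T6)]
    refine Finset.sum_congr rfl fun p _ => Finset.sum_congr rfl fun q _ => by rw [conj_wp]
  rw [h1, h2, h3, qf_rank, qf_rank, Complex.add_re]
  congr 1
  · rw [Complex.re_sum]
    refine Finset.sum_congr rfl fun a _ => ?_
    rw [one_mul, Complex.mul_conj, Complex.ofReal_re, Complex.normSq_eq_norm_sq]
  · rw [Fintype.sum_prod_type (α₁ := T6)]

/-- the fibration as a linear map -/
noncomputable def zl (u : Q4 → ℂ) : (Q4 → ℂ) →ₗ[ℂ] (S8 → ℂ) where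
  toFun x := zu DD u x
  map_add' x y := by
    ext s
    cases s with
    | inl j =>
      simp only [zu, Sum.elim_inl, map_add, Matrix.add_apply, mul_add, Finset.sum_add_distrib,
        Pi.add_apply, neg_add]
    | inr p => simp [zu]
  map_smul' c x := by
    ext s
    cases s with
    | inl j =>
      simp only [zu, Sum.elim_inl, map_smul, Matrix.smul_apply, smul_eq_mul, RingHom.id_apply,
        Pi.smul_apply, mul_neg, Finset.mul_sum]
      congr 1
      exact Finset.sum_congr rfl fun a _ => by ring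
    | inr p => simp [zu]

/-- Riesz representation on the leaf -/
theorem riesz (L : Matrix S8 S8 ℂ) (hL : IsUnit L.det) (g : S8 → ℂ)
    (u : Q4 → ℂ) : ∃ (v : Q4 → ℂ) (A B : Bool → ℂ),
      (∀ x, ∑ a, (L⁻¹.mulVec (zu DD u x)) a * g a =
        ∑ a, (L⁻¹.mulVec (zu DD u x)) a * conj ((L⁻¹.mulVec (zu DD u v)) a)) ∧
      ∀ a, bl (ew fun s => L s a) (zv A (pv u false)) (zv B (pv u true)) + g a =
        conj ((L⁻¹.mulVec (zu DD u v)) a) := by
  classical
  obtain ⟨v, hv⟩ := Pool.Agent.TH822.J3419.proj ((Matrix.toLin' L⁻¹) ∘ₗ zl u) g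
  have hv' : ∀ x, ∑ a, (L⁻¹.mulVec (zu DD u x)) a *
      (g a - conj ((L⁻¹.mulVec (zu DD u v)) a)) = 0 := hv
  obtain ⟨d, hd⟩ : ∃ d : S8 → ℂ, ∀ a, d a = g a - conj ((L⁻¹.mulVec (zu DD u v)) a) :=
    ⟨_, fun _ => rfl⟩
  obtain ⟨μ, hμ⟩ : ∃ μ : S8 → ℂ, μ = Matrix.vecMul d L⁻¹ := ⟨_, rfl⟩
  have hμL : ∀ a, ∑ s, μ s * L s a = d a := by
    intro a
    have : Matrix.vecMul μ L = d := by
      rw [hμ, Matrix.vecMul_vecMul, Matrix.nonsing_inv_mul L hL, Matrix.vecMul_one]
    rw [← this]
    rfl
  have hμ0 : ∀ x, ∑ s, μ s * zu DD u x s = 0 := by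
    intro x
    have h1 : dotProduct d (L⁻¹.mulVec (zu DD u x)) = dotProduct μ (zu DD u x) := by
      rw [hμ]
      exact Matrix.dotProduct_mulVec d L⁻¹ _
    have h2 : dotProduct μ (zu DD u x) = 0 := by
      rw [← h1, ← hv' x]
      unfold dotProduct
      exact Finset.sum_congr rfl fun a _ => by rw [hd]; exact mul_comm _ _
    exact h2
  have hp : ∀ α d : Bool, μ (Sum.inr (α, d)) = -(u (d, false) * μ (Sum.inl (α, false)) +
      u (d, true) * μ (Sum.inl (α, true))) := by
    intro α d
    have h := hμ0 (fun q => if q = (α, d) then 1 else 0)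
    rw [Fintype.sum_sum_type, Fintype.sum_prod_type, Fintype.sum_prod_type] at h
    simp only [Fintype.sum_bool, zu_inl, zu_inr] at h
    cases α <;> cases d <;> simp at h ⊢ <;> linear_combination h
  refine ⟨v, fun α => -μ (Sum.inl (α, true)), fun α => μ (Sum.inl (α, false)), fun x => ?_,
    fun a => ?_⟩
  · have h := hv' x
    simp_rw [mul_sub] at h
    rw [Finset.sum_sub_distrib] at h
    exact sub_eq_zero.mp h
  · have h1 : conj ((L⁻¹.mulVec (zu DD u v)) a) = g a - d a := by
      rw [hd]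
      ring
    rw [h1, ← hμL a]
    have h2 : bl (ew fun s => L s a) (zv (fun α => -μ (Sum.inl (α, true))) (pv u false))
        (zv (fun α => μ (Sum.inl (α, false))) (pv u true)) = -∑ s, μ s * L s a := by
      have h3 : (ew fun s => L s a) = fun i j => ∑ s, L s a * BS s i j := rfl
      rw [h3, bl_sum, ← Finset.sum_neg_distrib]
      refine Finset.sum_congr rfl fun s _ => ?_
      rw [bl_BS, zv_0, zv_0, zv_em, zv_em]
      rcases s with ⟨α, c⟩ | ⟨α, d⟩
      · change L (Sum.inl (α, c)) a * (-μ (Sum.inl (α, true)) * pv u true (1, c) -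
          μ (Sum.inl (α, false)) * pv u false (1, c)) = _
        cases c
        · change L (Sum.inl (α, false)) a * (-μ (Sum.inl (α, true)) * 0 -
            μ (Sum.inl (α, false)) * 1) = _
          ring
        · change L (Sum.inl (α, true)) a * (-μ (Sum.inl (α, true)) * 1 -
            μ (Sum.inl (α, false)) * 0) = _
          ring
      · rw [hp]
        change L (Sum.inr (α, d)) a * (-μ (Sum.inl (α, true)) * -u (d, true) -
          μ (Sum.inl (α, false)) * -u (d, false)) = _
        ring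
    rw [h2]
    ring

end Pool.Agent.R735.HA
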