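import Pool.Agent.R735.HA.Trans

/-!
# Unitary frames adapted to a decomposable bivector
-/

set_option autoImplicit false

namespace Pool.Agent.R735.HA

open Finset MeasureTheory Pool.Agent.TH598.GV
open scoped ComplexConjugate ComplexOrder

section

variable {I : Type} [Fintype I] [DecidableEq I]

omit [DecidableEq I] in
lemma Sf_sum_left {X : Type} [Fintype X] (H : I → I → I → I → ℂ) (c : X → ℂ)
    (p : X → I → I → ℂ) (q : I → I → ℂ) :
    Sf H (fun a b => ∑ x, c x * p x a b) q = ∑ x, c x * Sf H (p x) q := by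
  unfold Sf
  simp only [Finset.mul_sum, Finset.sum_mul]
  rw [← Pool.Agent.TH367.J4006.swap4 (fun x a b a' b' =>
    c x * (H a b a' b' * (p x a b * conj (q a' b'))))]
  refine Finset.sum_congr rfl fun i _ => Finset.sum_congr rfl fun j _ =>
    Finset.sum_congr rfl fun i' _ => Finset.sum_congr rfl fun j' _ =>
      Finset.sum_congr rfl fun x _ => by ring

omit [DecidableEq I] in
lemma Sf_sum_right {X : Type} [Fintype X] (H : I → I → I → I → ℂ) (c : X → ℂ)
    (p : I → I → ℂ) (q : X → I → I → ℂ) :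
    Sf H p (fun a b => ∑ x, c x * q x a b) = ∑ x, conj (c x) * Sf H p (q x) := by
  unfold Sf
  simp only [Finset.mul_sum, map_sum, map_mul]
  rw [← Pool.Agent.TH367.J4006.swap4 (fun x a b a' b' =>
    conj (c x) * (H a b a' b' * (p a b * conj (q x a' b'))))]
  refine Finset.sum_congr rfl fun i _ => Finset.sum_congr rfl fun j _ =>
    Finset.sum_congr rfl fun i' _ => Finset.sum_congr rfl fun j' _ =>
      Finset.sum_congr rfl fun x _ => by ring

omit [DecidableEq I] in
lemma Hc_Sf (M : Matrix I I ℂ) (H : I → I → I → I → ℂ) (i j k l : I) : Hc M H i j k l =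
    Sf H (fun a b => M a i * M b j) (fun a b => M a k * M b l) := by
  unfold Hc Sf
  refine Finset.sum_congr rfl fun a _ => Finset.sum_congr rfl fun b _ =>
    Finset.sum_congr rfl fun c _ => Finset.sum_congr rfl fun d _ => ?_
  rw [map_mul]
  ring

omit [DecidableEq I] in
lemma Sf_Hc (M : Matrix I I ℂ) (H : I → I → I → I → ℂ) (p q : I → I → ℂ) :
    Sf (Hc M H) p q = Sf H (fun a b => ∑ x : I × I, p x.1 x.2 * (M a x.1 * M b x.2))
      (fun a b => ∑ x : I × I, q x.1 x.2 * (M a x.1 * M b x.2)) := by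
  rw [Sf_sum_left H (fun x : I × I => p x.1 x.2) (fun x a b => M a x.1 * M b x.2)]
  unfold Sf
  rw [Fintype.sum_prod_type]
  refine Finset.sum_congr rfl fun i _ => Finset.sum_congr rfl fun j _ => ?_
  have h := Sf_sum_right H (fun x : I × I => q x.1 x.2) (fun a b => M a i * M b j)
    (fun x a b => M a x.1 * M b x.2)
  change ∑ k, ∑ l, Hc M H i j k l * (p i j * conj (q k l)) = p i j * Sf H _ _
  rw [h, Fintype.sum_prod_type, Finset.mul_sum]
  refine Finset.sum_congr rfl fun k _ => ?_
  rw [Finset.mul_sum]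
  refine Finset.sum_congr rfl fun l _ => ?_
  rw [Hc_Sf]
  ring

omit [DecidableEq I] in
lemma qf_Hc (M : Matrix I I ℂ) (H : I → I → I → I → ℂ) (z w : I → ℂ) :
    qf (Hc M H) z w = qf H (M.mulVec z) (M.mulVec w) := by
  rw [← Sf_qf, ← Sf_qf, Sf_Hc]
  have h : (fun a b => ∑ x : I × I, z x.1 * w x.2 * (M a x.1 * M b x.2)) =
      fun a b => M.mulVec z a * M.mulVec w b := by
    funext a b
    unfold Matrix.mulVec dotProduct
    rw [Fintype.sum_prod_type, Finset.sum_mul_sum]
    refine Finset.sum_congr rfl fun i _ => Finset.sum_congr rfl fun j _ => by ring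
  rw [h]

lemma Sf_UU (p q : I → I → ℂ) : Sf UU p q =
    ∑ a, ∑ b, p a b * (conj (q a b) - conj (q b a)) := by
  unfold Sf
  refine Finset.sum_congr rfl fun a _ => Finset.sum_congr rfl fun b _ => ?_
  have h1 : ∀ c d, UU a b c d * (p a b * conj (q c d)) =
      (if a = c then (if b = d then p a b * conj (q c d) else 0) else 0) -
      (if b = c then (if a = d then p a b * conj (q c d) else 0) else 0) := by
    intro c d
    unfold UU
    split_ifs <;> ring
  simp only [h1, Finset.sum_sub_distrib]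
  have e1 : ∀ c, ∑ d, (if a = c then (if b = d then p a b * conj (q c d) else 0) else 0) =
      if a = c then p a b * conj (q c b) else 0 := by
    intro c
    split_ifs with h
    · rw [Finset.sum_ite_eq, if_pos (Finset.mem_univ _)]
    · simp
  have e2 : ∀ c, ∑ d, (if b = c then (if a = d then p a b * conj (q c d) else 0) else 0) =
      if b = c then p a b * conj (q c a) else 0 := by
    intro c
    split_ifs with h
    · rw [Finset.sum_ite_eq, if_pos (Finset.mem_univ _)]
    · simp
  simp only [e1, e2, Finset.sum_ite_eq, Finset.mem_univ, if_true]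
  ring

lemma Hc_UU (M : Matrix I I ℂ) (hM : ∀ i k, ∑ a, M a i * conj (M a k) = if i = k then 1 else 0) :
    Hc M UU = UU := by
  funext i j k l
  rw [Hc_Sf, Sf_UU]
  have h : ∀ i j k l, ∑ a, ∑ b, M a i * M b j * (conj (M a k) * conj (M b l)) =
      (if i = k then 1 else 0) * (if j = l then 1 else 0) := by
    intro i j k l
    rw [← hM i k, ← hM j l, Finset.sum_mul_sum]
    exact Finset.sum_congr rfl fun a _ => Finset.sum_congr rfl fun b _ => by ring
  have h2 : ∑ a, ∑ b, M a i * M b j * (conj (M a k * M b l) - conj (M b k * M a l)) =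
      ∑ a, ∑ b, M a i * M b j * (conj (M a k) * conj (M b l)) -
      ∑ a, ∑ b, M a i * M b j * (conj (M a l) * conj (M b k)) := by
    rw [← Finset.sum_sub_distrib]
    refine Finset.sum_congr rfl fun a _ => ?_
    rw [← Finset.sum_sub_distrib]
    refine Finset.sum_congr rfl fun b _ => ?_
    rw [map_mul, map_mul]
    ring
  rw [h2, h, h]
  unfold UU
  ring

omit [DecidableEq I] in
lemma Hc_add (M : Matrix I I ℂ) (H G : I → I → I → I → ℂ) (δ : ℂ) (i j k l : I) :
    Hc M (fun a b c d => H a b c d - δ * G a b c d) i j k l =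
      Hc M H i j k l - δ * Hc M G i j k l := by
  unfold Hc
  simp only [Finset.mul_sum, ← Finset.sum_sub_distrib]
  refine Finset.sum_congr rfl fun i _ => Finset.sum_congr rfl fun j _ =>
    Finset.sum_congr rfl fun i' _ => Finset.sum_congr rfl fun j' _ => by ring

end

/-- a unitary frame whose first two vectors span the plane of two independent vectors -/
lemma frame (z w : Ix 2 → ℂ) (hzw : ∃ i j, z i * w j - z j * w i ≠ 0) :
    ∃ M : Matrix (Ix 2) (Ix 2) ℂ,
      (∀ i k, ∑ a, M a i * conj (M a k) = if i = k then 1 else 0) ∧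
      ∃ c : ℂ, ∀ a b, M a (0, false) * M b (0, true) - M b (0, false) * M a (0, true) =
        c * (z a * w b - z b * w a) := by
  classical
  obtain ⟨Z, hZ⟩ : ∃ Z : EuclideanSpace ℂ (Ix 2), ∀ i, Z i = z i :=
    ⟨WithLp.toLp 2 z, fun _ => rfl⟩
  obtain ⟨W', hW⟩ : ∃ W' : EuclideanSpace ℂ (Ix 2), ∀ i, W' i = w i :=
    ⟨WithLp.toLp 2 w, fun _ => rfl⟩
  have hZ0 : Z ≠ 0 := by
    rintro rfl
    obtain ⟨i, j, h⟩ := hzw
    apply h
    rw [← hZ i, ← hZ j]
    simp
  have hZn : (‖Z‖ : ℂ) ≠ 0 := by
    exact_mod_cast norm_ne_zero_iff.2 hZ0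
  obtain ⟨f0, hf0⟩ : ∃ f0 : EuclideanSpace ℂ (Ix 2), f0 = (‖Z‖ : ℂ)⁻¹ • Z := ⟨_, rfl⟩
  have hf0n : ‖f0‖ = 1 := by
    rw [hf0, norm_smul, norm_inv, Complex.norm_real, norm_norm,
      inv_mul_cancel₀ (norm_ne_zero_iff.2 hZ0)]
  obtain ⟨Y, hY⟩ : ∃ Y : EuclideanSpace ℂ (Ix 2), Y = W' - inner ℂ f0 W' • f0 := ⟨_, rfl⟩
  have hY0 : Y ≠ 0 := by
    intro h0
    rw [hY, sub_eq_zero] at h0
    obtain ⟨i, j, h⟩ := hzw
    apply h
    have e : ∀ i, w i = inner ℂ f0 W' * ((‖Z‖ : ℂ)⁻¹ * z i) := by
      intro i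
      rw [← hW i, ← hZ i]
      have := congrArg (fun v : EuclideanSpace ℂ (Ix 2) => v i) h0
      simp only [hf0, PiLp.smul_apply, smul_eq_mul] at this
      rw [← hf0] at this
      exact this
    rw [e i, e j]
    ring
  have hYn : (‖Y‖ : ℂ) ≠ 0 := by
    exact_mod_cast norm_ne_zero_iff.2 hY0
  obtain ⟨f1, hf1⟩ : ∃ f1 : EuclideanSpace ℂ (Ix 2), f1 = (‖Y‖ : ℂ)⁻¹ • Y := ⟨_, rfl⟩
  have hf1n : ‖f1‖ = 1 := by
    rw [hf1, norm_smul, norm_inv, Complex.norm_real, norm_norm,
      inv_mul_cancel₀ (norm_ne_zero_iff.2 hY0)]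
  have h01 : inner ℂ f0 f1 = 0 := by
    rw [hf1, inner_smul_right, hY, inner_sub_right, inner_smul_right,
      inner_self_eq_norm_sq_to_K, hf0n]
    simp
  obtain ⟨v, hv⟩ : ∃ v : Ix 2 → EuclideanSpace ℂ (Ix 2), v = fun i =>
    if i = (0, false) then f0 else if i = (0, true) then f1 else 0 := ⟨_, rfl⟩
  have hv0 : v (0, false) = f0 := by rw [hv]; simp
  have hv1 : v (0, true) = f1 := by rw [hv]; simp
  have hon : Orthonormal ℂ (({(0, false), (0, true)} : Set (Ix 2)).domRestrict v) := by
    rw [orthonormal_iff_ite]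
    rintro ⟨i, hi⟩ ⟨j, hj⟩
    simp only [Set.domRestrict_apply]
    rcases hi with rfl | hi
    · rcases hj with rfl | hj
      · rw [hv0, inner_self_eq_norm_sq_to_K, hf0n]
        simp
      · rw [Set.mem_singleton_iff] at hj
        subst hj
        rw [hv0, hv1, h01]
        simp
    · rw [Set.mem_singleton_iff] at hi
      subst hi
      rcases hj with rfl | hj
      · rw [hv0, hv1, ← inner_conj_symm, h01]
        simp
      · rw [Set.mem_singleton_iff] at hj
        subst hj
        rw [hv1, inner_self_eq_norm_sq_to_K, hf1n]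
        simp
  have hc : Module.finrank ℂ (EuclideanSpace ℂ (Ix 2)) = Fintype.card (Ix 2) :=
    finrank_euclideanSpace
  obtain ⟨b, hb⟩ := hon.exists_orthonormalBasis_extension_of_card_eq hc
  have hb0 : b (0, false) = f0 := by rw [hb _ (by simp), hv0]
  have hb1 : b (0, true) = f1 := by rw [hb _ (by simp), hv1]
  refine ⟨fun a i => b i a, fun i k => ?_, (‖Z‖ : ℂ)⁻¹ * (‖Y‖ : ℂ)⁻¹, fun a c => ?_⟩
  · have h := orthonormal_iff_ite.1 b.orthonormal k i
    rw [PiLp.inner_apply] at h
    simp only [RCLike.inner_apply] at h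
    rw [h]
    simp only [eq_comm (a := k)]
  · have e0 : ∀ a, b (0, false) a = (‖Z‖ : ℂ)⁻¹ * z a := by
      intro a
      rw [hb0, hf0, PiLp.smul_apply, smul_eq_mul, hZ]
    have e1 : ∀ a, b (0, true) a = (‖Y‖ : ℂ)⁻¹ *
        (w a - inner ℂ f0 W' * ((‖Z‖ : ℂ)⁻¹ * z a)) := by
      intro a
      rw [hb1, hf1, PiLp.smul_apply, smul_eq_mul, ← hW, ← hZ]
      congr 1
      rw [hY, PiLp.sub_apply, PiLp.smul_apply, smul_eq_mul]
      congr 2
      rw [hf0, PiLp.smul_apply, smul_eq_mul]
    change b (0, false) a * b (0, true) c - b (0, false) c * b (0, true) a = _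
    rw [e0 a, e1 c, e0 c, e1 a]
    ring

/-- **Quantitative coordinate theorem**, arbitrary decomposable extremal bivector. -/
theorem quantC (H : Ix 2 → Ix 2 → Ix 2 → Ix 2 → ℂ) (hH : HS H) (δ : ℝ) (hδ : 0 ≤ δ)
    (hK : ∀ z w : Ix 2 → ℂ, δ * (qf UU z w).re ≤ (qf H z w).re)
    (z w : Ix 2 → ℂ) (hzw : ∃ i j, z i * w j - z j * w i ≠ 0)
    (h0 : ∀ k l, ∑ a, ∑ b, (H a b k l - δ * UU a b k l) * (z a * w b) = 0) :
    2 ^ 3 * ((2 * 3).factorial : ℝ) * δ ^ 3 ≤ (GG H).re := by
  obtain ⟨M, hM, c, hc⟩ := frame z w hzw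
  have hU : Hc M UU = UU := Hc_UU M hM
  have hq : ∀ z w : Ix 2 → ℂ, (qf UU (M.mulVec z) (M.mulVec w)) = qf UU z w := by
    intro z w
    rw [← qf_Hc, hU]
  have key := quant6 (Hc M H) (Hc_HS M hH) δ hδ (fun z w => ?_) (fun k l => ?_)
  · have hdet : M.det * conj M.det = 1 := by
      have h1 : M.transpose * M.map conj = 1 := by
        ext i k
        rw [Matrix.mul_apply, Matrix.one_apply, ← hM i k]
        rfl
      have h2 := congrArg Matrix.det h1
      rw [Matrix.det_mul, Matrix.det_transpose, Matrix.det_one] at h2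
      have h5 : (M.map conj).det = conj M.det := by
        rw [RingHom.map_det]
        rfl
      rw [h5] at h2
      exact h2
    rw [GG_trans, hdet, one_mul] at key
    exact key
  · rw [qf_Hc, ← hq]
    exact hK _ _
  · -- the kernel condition
    obtain ⟨G, hG⟩ : ∃ G : Ix 2 → Ix 2 → Ix 2 → Ix 2 → ℂ, G = fun a b c d =>
      H a b c d - (δ : ℂ) * UU a b c d := ⟨_, rfl⟩
    have hGHS : HS G := by
      have hUHS : HS (UU (I := Ix 2)) := Pool.Agent.TH541.J3422.II_HS
      constructor
      · intro i j k l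
        simp only [hG, map_sub, map_mul, Complex.conj_ofReal]
        rw [hH.herm, hUHS.herm]
      · intro i j k l
        simp only [hG]
        rw [hH.alt, hUHS.alt]
        ring
    have h1 : Hc M G (0, false) (0, true) k l = 0 := by
      rw [Hc_Sf]
      have e1 : ∀ q : Ix 2 → Ix 2 → ℂ, Sf G (fun a b => z a * w b) q = 0 := by
        intro q
        have e2 : Sf G (fun a b => z a * w b) q = ∑ k, ∑ l,
            (∑ a, ∑ b, G a b k l * (z a * w b)) * conj (q k l) := by
          have e3 : ∀ F : Ix 2 → Ix 2 → Ix 2 → Ix 2 → ℂ,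
              ∑ i, ∑ j, ∑ i', ∑ j', F i j i' j' = ∑ i', ∑ j', ∑ i, ∑ j, F i j i' j' := by
            intro F
            calc ∑ i, ∑ j, ∑ i', ∑ j', F i j i' j' =
                ∑ a : Ix 2 × Ix 2, ∑ b : Ix 2 × Ix 2, F a.1 a.2 b.1 b.2 := by
                  simp only [Fintype.sum_prod_type (α₁ := Ix 2)]
              _ = ∑ b : Ix 2 × Ix 2, ∑ a : Ix 2 × Ix 2, F a.1 a.2 b.1 b.2 := Finset.sum_comm
              _ = _ := by simp only [Fintype.sum_prod_type (α₁ := Ix 2)]
          unfold Sf
          rw [e3]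
          refine Finset.sum_congr rfl fun k _ => Finset.sum_congr rfl fun l _ => ?_
          rw [Finset.sum_mul]
          refine Finset.sum_congr rfl fun a _ => ?_
          rw [Finset.sum_mul]
          exact Finset.sum_congr rfl fun b _ => by ring
        rw [e2]
        refine Finset.sum_eq_zero fun k _ => Finset.sum_eq_zero fun l _ => ?_
        simp only [hG]
        rw [h0, zero_mul]
      have e3 : ∀ q : Ix 2 → Ix 2 → ℂ, Sf G (fun a b => M a (0, false) * M b (0, true)) q = 0 := by
        intro q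
        have f1 : Sf G (fun a b => M a (0, false) * M b (0, true) -
            M b (0, false) * M a (0, true)) q =
            2 * Sf G (fun a b => M a (0, false) * M b (0, true)) q := by
          rw [Sf_sub_left G (fun a b => M a (0, false) * M b (0, true))
            (fun a b => M b (0, false) * M a (0, true)),
            alt_left hGHS (fun a b => M a (0, false) * M b (0, true))]
          ring
        have f2 : (fun a b => M a (0, false) * M b (0, true) -
            M b (0, false) * M a (0, true)) = fun a b =>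
            (∑ x : Bool, (if x then c else -c) * (if x then z a * w b else z b * w a)) := by
          funext a b
          rw [hc]
          simp only [Fintype.sum_bool, if_true, Bool.false_eq_true, if_false]
          ring
        rw [f2, Sf_sum_left G (fun x : Bool => if x then c else -c)
          (fun x a b => if x then z a * w b else z b * w a)] at f1
        simp only [Fintype.sum_bool, if_true, Bool.false_eq_true, if_false] at f1
        rw [alt_left hGHS (fun a b => z a * w b), e1] at f1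
        have f3 : (2 : ℂ) * Sf G (fun a b => M a (0, false) * M b (0, true)) q = 0 := by
          rw [← f1]
          ring
        rcases mul_eq_zero.1 f3 with h | h
        · norm_num at h
        · exact h
      exact e3 _
    rw [hG, Hc_add, hU, sub_eq_zero] at h1
    exact h1

end Pool.Agent.R735.HA
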