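import Pool.Agent.R735.HA.CxHyp

/-!
# Nonpositive complex sectional curvature and one complex hyperplane: Euclidean spaces
-/

set_option autoImplicit false

namespace Pool.Agent.R735.HA

open Finset MeasureTheory Module
open Pool.Agent.W666.GB Pool.Agent.TH598.GV
open scoped ComplexConjugate ComplexOrder

section fam

variable {I Q : Type} [Fintype I] [Fintype Q]

open Pool.Agent.TH828.J3423 in
lemma QQ_sum_left (R : I → I → I → I → ℝ) (P : Q → I → I → ℝ) (r : I → I → ℝ) :
    QQ R (fun i j => ∑ q, P q i j) r = ∑ q, QQ R (P q) r := by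
  have c : ∀ (G : I → Q → ℝ), ∑ i, ∑ q, G i q = ∑ q, ∑ i, G i q := fun G => Finset.sum_comm
  have h : ∀ a b k l, R a b k l * ((∑ q, P q a b) * r k l) =
      ∑ q, R a b k l * (P q a b * r k l) := by
    intro a b k l
    rw [Finset.sum_mul, Finset.mul_sum]
  unfold QQ
  simp only [h, c]

open Pool.Agent.TH828.J3423 in
lemma QQ_sum_right (R : I → I → I → I → ℝ) (P : Q → I → I → ℝ) (r : I → I → ℝ) :
    QQ R r (fun i j => ∑ q, P q i j) = ∑ q, QQ R r (P q) := by
  have c : ∀ (G : I → Q → ℝ), ∑ i, ∑ q, G i q = ∑ q, ∑ i, G i q := fun G => Finset.sum_comm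
  have h : ∀ a b k l, R a b k l * (r a b * ∑ q, P q k l) =
      ∑ q, R a b k l * (r a b * P q k l) := by
    intro a b k l
    rw [Finset.mul_sum, Finset.mul_sum]
  unfold QQ
  simp only [h, c]

open Pool.Agent.TH828.J3423 in
lemma QQ_two (R : I → I → I → I → ℝ) (s : ℝ) (x u y v x' u' y' v' : I → ℝ) :
    QQ R (fun i j => x i * u j + s * (y i * v j)) (fun i j => x' i * u' j + s * (y' i * v' j)) =
      Pool.Agent.TH598.GV.rq R x u x' u' + s * Pool.Agent.TH598.GV.rq R x u y' v' +
        s * Pool.Agent.TH598.GV.rq R y v x' u' + s * s * Pool.Agent.TH598.GV.rq R y v y' v' := by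
  unfold QQ Pool.Agent.TH598.GV.rq
  simp only [Finset.mul_sum, ← Finset.sum_add_distrib]
  refine Finset.sum_congr rfl fun a _ => Finset.sum_congr rfl fun b _ =>
    Finset.sum_congr rfl fun k _ => Finset.sum_congr rfl fun l _ => by ring

open Pool.Agent.TH828.J3423 in
/-- the quadratic form on a family -/
lemma QQ_fam (R : I → I → I → I → ℝ) (s : ℝ) (x u y v : Q → I → ℝ) :
    QQ R (fun i j => ∑ q, (x q i * u q j + s * (y q i * v q j)))
      (fun i j => ∑ q, (x q i * u q j + s * (y q i * v q j))) =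
      ∑ q, ∑ q', (Pool.Agent.TH598.GV.rq R (x q) (u q) (x q') (u q') +
        s * Pool.Agent.TH598.GV.rq R (x q) (u q) (y q') (v q') +
        s * Pool.Agent.TH598.GV.rq R (y q) (v q) (x q') (u q') +
        s * s * Pool.Agent.TH598.GV.rq R (y q) (v q) (y q') (v q')) := by
  rw [QQ_sum_left R (fun q i j => x q i * u q j + s * (y q i * v q j))]
  refine Finset.sum_congr rfl fun q _ => ?_
  rw [QQ_sum_right R (fun q i j => x q i * u q j + s * (y q i * v q j))]
  exact Finset.sum_congr rfl fun q' _ => QQ_two R s _ _ _ _ _ _ _ _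

end fam

section

variable {V : Type} [NormedAddCommGroup V] [InnerProductSpace ℝ V]

/-- The complex vector `x + i y` lies in the complex hyperplane of the covector `α + i β`: real and
imaginary part of the complex bilinear product of `α + i β` and `x + i y` vanish. -/
def InHyp (α β x y : V) : Prop :=
  inner ℝ α x - inner ℝ β y = 0 ∧ inner ℝ α y + inner ℝ β x = 0

/-- The curvature operator of `R` is nonpositive on the complex bivectors of the hyperplane of
`α + i β`: `R^ℂ (ω, conj ω) ≤ 0` for `ω = ∑ (x k + i y k) ∧ (u k + i v k)` with all `x k + i y k` and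
`u k + i v k` in the hyperplane. -/
def OpNonposCx (R : V → V → V → V → ℝ) (α β : V) : Prop :=
  ∀ (n : ℕ) (x y u v : Fin n → V), (∀ k, InHyp α β (x k) (y k)) → (∀ k, InHyp α β (u k) (v k)) →
    (∑ k, ∑ l, (R (x k) (u k) (x l) (u l) - R (x k) (u k) (y l) (v l) -
        R (y k) (v k) (x l) (u l) + R (y k) (v k) (y l) (v l))) +
      (∑ k, ∑ l, (R (x k) (v k) (x l) (v l) + R (x k) (v k) (y l) (u l) +
        R (y k) (u k) (x l) (v l) + R (y k) (u k) (y l) (u l))) ≤ 0

lemma inner_vc {m : ℕ} (e : OrthonormalBasis (Fin m × Bool) ℝ V) (α : V)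
    (c : Fin m × Bool → ℝ) : inner ℝ α (vc e c) = ∑ a, e.repr α a * c a := by
  unfold vc
  rw [inner_sum]
  refine Finset.sum_congr rfl fun a _ => ?_
  rw [inner_smul_right, e.repr_apply_apply, real_inner_comm]
  ring

/-- the hyperplane in coordinates -/
lemma inHyp_vc {m : ℕ} (e : OrthonormalBasis (Fin m × Bool) ℝ V) (α β : V)
    (z : Fin m × Bool → ℂ)
    (h : ∑ a, (⟨e.repr α a, e.repr β a⟩ : ℂ) * z a = 0) :
    InHyp α β (vc e fun a => (z a).re) (vc e fun a => (z a).im) := by
  have h1 := congrArg Complex.re h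
  have h2 := congrArg Complex.im h
  simp only [Complex.re_sum, Complex.im_sum, Complex.mul_re, Complex.mul_im, Complex.zero_re,
    Complex.zero_im, Finset.sum_sub_distrib, Finset.sum_add_distrib] at h1 h2
  constructor
  · rw [inner_vc, inner_vc]
    exact h1
  · rw [inner_vc, inner_vc]
    exact h2

/-- the operator condition on arbitrary finite families -/
lemma opCx_fam {R : V → V → V → V → ℝ} {α β : V} (hO : OpNonposCx R α β) {Q : Type} [Fintype Q]
    (x y u v : Q → V) (h1 : ∀ k, InHyp α β (x k) (y k)) (h2 : ∀ k, InHyp α β (u k) (v k)) :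
    (∑ k, ∑ l, (R (x k) (u k) (x l) (u l) - R (x k) (u k) (y l) (v l) -
        R (y k) (v k) (x l) (u l) + R (y k) (v k) (y l) (v l))) +
      (∑ k, ∑ l, (R (x k) (v k) (x l) (v l) + R (x k) (v k) (y l) (u l) +
        R (y k) (u k) (x l) (v l) + R (y k) (u k) (y l) (u l))) ≤ 0 := by
  classical
  obtain ⟨c⟩ : Nonempty (Fin (Fintype.card Q) ≃ Q) := ⟨(Fintype.equivFin Q).symm⟩
  have h := hO _ (fun i => x (c i)) (fun i => y (c i)) (fun i => u (c i)) (fun i => v (c i))
    (fun i => h1 _) (fun i => h2 _)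
  have e1 : ∀ F : Q → Q → ℝ, ∑ k, ∑ l, F (c k) (c l) = ∑ k, ∑ l, F k l := by
    intro F
    rw [← Equiv.sum_comp c (fun k => ∑ l, F k l)]
    exact Finset.sum_congr rfl fun k _ => Equiv.sum_comp c (fun l => F (c k) l)
  rw [e1 (fun k l => (R (x k) (u k) (x l) (u l) - R (x k) (u k) (y l) (v l) -
        R (y k) (v k) (x l) (u l) + R (y k) (v k) (y l) (v l))),
    e1 (fun k l => (R (x k) (v k) (x l) (v l) + R (x k) (v k) (y l) (u l) +
        R (y k) (u k) (x l) (v l) + R (y k) (u k) (y l) (u l)))] at h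
  exact h

/-- **Hopf sign, every even dimension, one complex hyperplane, pointwise.** -/
theorem pointH {m : ℕ} (e : OrthonormalBasis (Fin m × Bool) ℝ V) {R : V → V → V → V → ℝ}
    (hR : AlgCurv R) {κ : ℝ} (hκ : 0 ≤ κ) (hC : CxNonpos (shiftT R κ)) (α β : V)
    (hαβ : α ≠ 0 ∨ β ≠ 0) (hO : OpNonposCx R α β) :
    roundGB m κ ≤ (-1) ^ m * gbc e R := by
  classical
  obtain ⟨Rf, hRf⟩ : ∃ Rf : Fin m × Bool → Fin m × Bool → Fin m × Bool → Fin m × Bool → ℝ,
    Rf = fun i j k l => -R (e i) (e j) (e k) (e l) := ⟨_, rfl⟩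
  have hpair : ∀ i j k l, Rf k l i j = Rf i j k l := fun i j k l => by
    simp only [hRf]; rw [hR.pair]
  have halt : ∀ i j k l, Rf j i k l = - Rf i j k l := fun i j k l => by
    simp only [hRf]; rw [hR.anti]
  have hHS : HS (fun a b c d => ((Rf a b c d : ℝ) : ℂ)) := by
    constructor
    · intro i j k l
      rw [Complex.conj_ofReal, hpair]
    · intro i j k l
      rw [halt]; push_cast; ring
  have hT := shift_curv hR κ
  obtain ⟨T, hTdef⟩ : ∃ T, T = shiftT R κ := ⟨_, rfl⟩
  rw [← hTdef] at hT hC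
  have hUU : (UU : Fin m × Bool → Fin m × Bool → Fin m × Bool →
      Fin m × Bool → ℂ) = fun a b c d => ((unitCurv a b c d : ℝ) : ℂ) := by
    funext a b c d
    have e2 : ∀ (P : Prop) [Decidable P], (((if P then 1 else 0 : ℝ)) : ℂ) =
        if P then 1 else 0 := by
      intro P _
      split_ifs <;> simp
    simp only [UU, unitCurv]
    rw [Complex.ofReal_sub, Complex.ofReal_mul, Complex.ofReal_mul, e2, e2, e2, e2]
  have hcomp : ∀ i j k l, -T (e i) (e j) (e k) (e l) = Rf i j k l - κ * unitCurv i j k l := by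
    intro i j k l
    have hin : ∀ i j, inner ℝ (e i) (e j) = if i = j then (1 : ℝ) else 0 := fun i j => by
      rw [e.inner_eq_ite]
    simp only [hTdef, shiftT, unitCurv, hin, hRf]
    ring
  have key := strongC (fun a b c d => ((Rf a b c d : ℝ) : ℂ)) hHS
    (fun a => ⟨e.repr α a, e.repr β a⟩) ?_ (fun z w hz hw => ?_) κ hκ (fun z w => ?_)
  · rw [Pool.Agent.TH828.J3423.GG_re] at key
    have hsum : ∑ σ : Equiv.Perm (Fin m × Bool), ∑ τ : Equiv.Perm (Fin m × Bool),
          Pool.Agent.W666.GB.sn σ * Pool.Agent.W666.GB.sn τ *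
            ∏ b : Fin m, Rf (σ (b, false)) (σ (b, true)) (τ (b, false)) (τ (b, true)) =
        (-1) ^ m * ∑ σ : Equiv.Perm (Fin m × Bool),
          ∑ τ : Equiv.Perm (Fin m × Bool),
          ((Equiv.Perm.sign σ : ℤ) : ℝ) * ((Equiv.Perm.sign τ : ℤ) : ℝ) *
            ∏ b : Fin m, R (e (σ (b, false))) (e (σ (b, true))) (e (τ (b, false)))
              (e (τ (b, true))) := by
      simp only [hRf, Finset.prod_neg, Finset.mul_sum, Finset.card_univ, Fintype.card_fin,
        Pool.Agent.W666.GB.sn]
      refine Finset.sum_congr rfl fun σ _ => Finset.sum_congr rfl fun τ _ => by ring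
    rw [hsum] at key
    have hπ := Real.pi_pos
    have hc : 0 < 1 / ((8 * Real.pi) ^ m * ((m : ℕ).factorial : ℝ)) := by positivity
    have h1 := mul_le_mul_of_nonneg_left key hc.le
    have h2 : 1 / ((8 * Real.pi) ^ m * ((m : ℕ).factorial : ℝ)) *
        (2 ^ m * ((2 * m).factorial : ℝ) * κ ^ m) = roundGB m κ := by
      unfold roundGB
      have h8 : (8 * Real.pi) ^ m = 2 ^ m * (4 * Real.pi) ^ m := by
        rw [← mul_pow]; ring
      rw [h8]
      field_simp
    rw [h2] at h1
    refine h1.trans (le_of_eq ?_)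
    unfold gbc
    ring
  · -- the covector is not zero
    by_contra hcon
    push Not at hcon
    have h1 : ∀ a, e.repr α a = 0 ∧ e.repr β a = 0 := fun a => by
      have := hcon a
      exact ⟨congrArg Complex.re this, congrArg Complex.im this⟩
    have hα : α = 0 := by
      rw [← e.sum_repr α]
      exact Finset.sum_eq_zero fun a _ => by rw [(h1 a).1, zero_smul]
    have hβ : β = 0 := by
      rw [← e.sum_repr β]
      exact Finset.sum_eq_zero fun a _ => by rw [(h1 a).2, zero_smul]
    rcases hαβ with h | h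
    · exact h hα
    · exact h hβ
  · -- the operator condition
    have h1 := opCx_fam hO (fun q => vc e fun a => (z q a).re) (fun q => vc e fun a => (z q a).im)
      (fun q => vc e fun a => (w q a).re) (fun q => vc e fun a => (w q a).im)
      (fun q => inHyp_vc e α β (z q) (hz q)) (fun q => inHyp_vc e α β (w q) (hw q))
    have h2 : (Sf (fun a b c d => ((Rf a b c d : ℝ) : ℂ)) (fun a b => ∑ q, z q a * w q b)
        (fun a b => ∑ q, z q a * w q b)).re =
        Pool.Agent.TH828.J3423.QQ Rf (fun a b => (∑ q, z q a * w q b).re)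
          (fun a b => (∑ q, z q a * w q b).re) +
        Pool.Agent.TH828.J3423.QQ Rf (fun a b => (∑ q, z q a * w q b).im)
          (fun a b => (∑ q, z q a * w q b).im) :=
      Pool.Agent.TH828.J3423.re_herm Rf (fun a b => ∑ q, z q a * w q b)
    have h3 : (fun a b => (∑ q, z q a * w q b).re) = fun a b => ∑ q, ((z q a).re * (w q b).re +
        (-1) * ((z q a).im * (w q b).im)) := by
      funext a b
      rw [Complex.re_sum]
      exact Finset.sum_congr rfl fun q _ => by rw [Complex.mul_re]; ring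
    have h4 : (fun a b => (∑ q, z q a * w q b).im) = fun a b => ∑ q, ((z q a).re * (w q b).im +
        1 * ((z q a).im * (w q b).re)) := by
      funext a b
      rw [Complex.im_sum]
      exact Finset.sum_congr rfl fun q _ => by rw [Complex.mul_im]; ring
    rw [h2, h3, h4,
      QQ_fam Rf (-1) (fun q a => (z q a).re) (fun q a => (w q a).re) (fun q a => (z q a).im)
        (fun q a => (w q a).im),
      QQ_fam Rf 1 (fun q a => (z q a).re) (fun q a => (w q a).im) (fun q a => (z q a).im)
        (fun q a => (w q a).re)]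
    have h5 : ∀ a b c d : Fin m × Bool → ℝ, rq Rf a b c d =
        -R (vc e a) (vc e b) (vc e c) (vc e d) := by
      intro a b c d
      rw [hRf]
      exact rq_eq hR e a b c d
    simp only [h5]
    have h6 : ∀ A B : ℝ, A + B ≤ 0 → ∀ A' B' : ℝ, A' = -A → B' = -B → 0 ≤ A' + B' := by
      intro A B h A' B' ha hb
      linarith
    refine h6 _ _ h1 _ _ ?_ ?_
    · rw [← Finset.sum_neg_distrib]
      refine Finset.sum_congr rfl fun q _ => ?_
      rw [← Finset.sum_neg_distrib]
      exact Finset.sum_congr rfl fun q' _ => by ring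
    · rw [← Finset.sum_neg_distrib]
      refine Finset.sum_congr rfl fun q _ => ?_
      rw [← Finset.sum_neg_distrib]
      exact Finset.sum_congr rfl fun q' _ => by ring
  · -- complex sectional curvatures
    have hup : ∀ i j k l : Fin m × Bool, unitCurv k l i j = unitCurv i j k l := by
      intro i j k l
      have e1 : ∀ a b : Fin m × Bool, (if a = b then (1 : ℝ) else 0) =
          if b = a then 1 else 0 := fun a b => by
        by_cases h : a = b
        · rw [if_pos h, if_pos h.symm]
        · rw [if_neg h, if_neg fun h' => h h'.symm]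
      simp only [unitCurv]
      rw [e1 k i, e1 l j, e1 k j, e1 l i]
      ring
    rw [hUU, Pool.Agent.TH828.J3423.re_qf _ hup, Pool.Agent.TH828.J3423.re_qf _ hpair]
    have hrq : ∀ a b c d : Fin m × Bool → ℝ,
        Pool.Agent.TH828.J3423.rq Rf a b c d - κ * Pool.Agent.TH828.J3423.rq unitCurv a b c d =
          -T (vc e a) (vc e b) (vc e c) (vc e d) := by
      intro a b c d
      rw [← rq_eq hT]
      unfold Pool.Agent.TH828.J3423.rq rq
      simp only [hcomp, Finset.mul_sum, ← Finset.sum_sub_distrib]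
      refine Finset.sum_congr rfl fun i _ => Finset.sum_congr rfl fun j _ =>
        Finset.sum_congr rfl fun k _ => Finset.sum_congr rfl fun l _ => by ring
    have h1 := hrq (fun a => (z a).re) (fun a => (w a).re) (fun a => (z a).re) (fun a => (w a).re)
    have h2 := hrq (fun a => (z a).im) (fun a => (w a).im) (fun a => (z a).im) (fun a => (w a).im)
    have h3 := hrq (fun a => (z a).re) (fun a => (w a).im) (fun a => (z a).re) (fun a => (w a).im)
    have h4 := hrq (fun a => (z a).im) (fun a => (w a).re) (fun a => (z a).im) (fun a => (w a).re)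
    have h5 := hrq (fun a => (z a).re) (fun a => (w a).re) (fun a => (z a).im) (fun a => (w a).im)
    have h6 := hrq (fun a => (z a).re) (fun a => (w a).im) (fun a => (z a).im) (fun a => (w a).re)
    have h7 := hC (vc e fun a => (z a).re) (vc e fun a => (z a).im) (vc e fun a => (w a).re)
      (vc e fun a => (w a).im)
    linarith

/-- **Strict sign.** -/
theorem pointH_strict {m : ℕ} (e : OrthonormalBasis (Fin m × Bool) ℝ V)
    {R : V → V → V → V → ℝ} (hR : AlgCurv R) (hC : CxNeg R) (α β : V)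
    (hαβ : α ≠ 0 ∨ β ≠ 0) (hO : OpNonposCx R α β) : 0 < (-1) ^ m * gbc e R := by
  obtain ⟨κ, hκ, h⟩ := exists_shift e hR hC
  exact (roundGB_pos' m hκ).trans_le (pointH e hR hκ.le h α β hαβ hO)

end

variable {m : ℕ} {M : Type} [MeasurableSpace M]

/-- the integrated form -/
theorem fieldH (μ : Measure M) (K : CurvField m M) (κ : M → ℝ)
    (h : ∀ p, 0 ≤ κ p ∧ CxNonpos (shiftT (K.R p) (κ p)) ∧
      ∃ α β : K.V p, (α ≠ 0 ∨ β ≠ 0) ∧ OpNonposCx (K.R p) α β) :
    0 ≤ (-1) ^ m * ∫ p, K.gb p ∂μ ∧
    (Integrable K.gb μ → Integrable (fun p => roundGB m (κ p)) μ →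
      ∫ p, roundGB m (κ p) ∂μ ≤ (-1) ^ m * ∫ p, K.gb p ∂μ) ∧
    (Integrable K.gb μ → μ {p | CxNeg (K.R p)} ≠ 0 → 0 < (-1) ^ m * ∫ p, K.gb p ∂μ) := by
  have h0 : ∀ p, roundGB m (κ p) ≤ (-1) ^ m * K.gb p := by
    intro p
    obtain ⟨h1, h2, α, β, hαβ, hO⟩ := h p
    exact pointH (K.e p) (K.curv p) h1 h2 α β hαβ hO
  have h1 : ∀ p, 0 ≤ (-1) ^ m * K.gb p := fun p => (roundGB_nonneg' m (h p).1).trans (h0 p)
  refine ⟨?_, fun hi hi' => ?_, fun hi hμ => ?_⟩
  · rw [← integral_const_mul]
    exact integral_nonneg h1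
  · rw [← integral_const_mul]
    exact integral_mono hi' (hi.const_mul _) h0
  · rw [← integral_const_mul, integral_pos_iff_support_of_nonneg h1 (hi.const_mul _)]
    refine lt_of_lt_of_le (pos_iff_ne_zero.2 hμ) (measure_mono ?_)
    intro p hp
    obtain ⟨-, -, α, β, hαβ, hO⟩ := h p
    exact (pointH_strict (K.e p) (K.curv p) hp α β hαβ hO).ne'

end Pool.Agent.R735.HA
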