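import Pool.Agent.R735.HA.Alg2

/-!
# The components of the square of a mixed two-form on a leaf
-/

set_option autoImplicit false

namespace Pool.Agent.R735.HA

open Finset MeasureTheory Pool.Agent.TH598.GV
open scoped ComplexConjugate ComplexOrder

/-- six rows -/
def R6 (a b c d e f : Ix 2 → ℂ) : Ix 2 → Ix 2 → ℂ
  | (0, false) => a
  | (0, true) => b
  | (1, false) => c
  | (1, true) => d
  | (2, false) => e
  | (2, true) => f

/-- the determinant of six rows -/
noncomputable def D6 (a b c d e f : Ix 2 → ℂ) : ℂ := Matrix.det (Matrix.of (R6 a b c d e f))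

lemma D6_eq (a b c d e f : Ix 2 → ℂ) : D6 a b c d e f = ∑ σ : Equiv.Perm (Ix 2), cs σ *
    ((a (σ (0, false)) * b (σ (0, true))) * ((c (σ (1, false)) * d (σ (1, true))) *
      (e (σ (2, false)) * f (σ (2, true))))) := by
  unfold D6
  rw [← Matrix.det_transpose, Matrix.det_apply']
  refine Finset.sum_congr rfl fun σ _ => ?_
  unfold cs
  congr 1
  rw [Fintype.prod_prod_type, Fin.prod_univ_three]
  simp only [Fintype.prod_bool, Matrix.transpose_apply, Matrix.of_apply, R6]
  ring

lemma D6_zero {a b c d e f : Ix 2 → ℂ} (p q : Ix 2) (hpq : p ≠ q)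
    (h : R6 a b c d e f p = R6 a b c d e f q) : D6 a b c d e f = 0 :=
  Matrix.det_zero_of_row_eq hpq h

lemma D6_perm {a b c d e f a' b' c' d' e' f' : Ix 2 → ℂ} (p q : Ix 2) (hpq : p ≠ q)
    (h : ∀ r, R6 a' b' c' d' e' f' r = R6 a b c d e f (Equiv.swap p q r)) :
    D6 a' b' c' d' e' f' = -D6 a b c d e f := by
  have h1 := Matrix.det_permute (Equiv.swap p q) (Matrix.of (R6 a b c d e f))
  rw [Equiv.Perm.sign_swap hpq] at h1
  unfold D6
  have h2 : Matrix.of (R6 a' b' c' d' e' f') =
      (Matrix.of (R6 a b c d e f)).submatrix (Equiv.swap p q) id := by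
    ext r i
    simp only [Matrix.submatrix_apply, Matrix.of_apply, id]
    rw [h]
  rw [h2, h1]
  simp

lemma all6 {P : Ix 2 → Prop} (h0 : P (0, false)) (h1 : P (0, true)) (h2 : P (1, false))
    (h3 : P (1, true)) (h4 : P (2, false)) (h5 : P (2, true)) : ∀ r, P r := by
  rintro ⟨i, c⟩
  fin_cases i <;> cases c <;> assumption

lemma D6_sw0 (a b c d e f : Ix 2 → ℂ) : D6 b a c d e f = -D6 a b c d e f :=
  D6_perm (0, false) (0, true) (by decide) (all6 rfl rfl rfl rfl rfl rfl)

lemma D6_sw1 (a b c d e f : Ix 2 → ℂ) : D6 a b d c e f = -D6 a b c d e f :=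
  D6_perm (1, false) (1, true) (by decide) (all6 rfl rfl rfl rfl rfl rfl)

lemma D6_sw2 (a b c d e f : Ix 2 → ℂ) : D6 a b c d f e = -D6 a b c d e f :=
  D6_perm (2, false) (2, true) (by decide) (all6 rfl rfl rfl rfl rfl rfl)

lemma D6_swf (a b c d e f : Ix 2 → ℂ) : D6 a b e d c f = -D6 a b c d e f :=
  D6_perm (1, false) (2, false) (by decide) (all6 rfl rfl rfl rfl rfl rfl)

lemma D6_swt (a b c d e f : Ix 2 → ℂ) : D6 a b c f e d = -D6 a b c d e f :=
  D6_perm (1, true) (2, true) (by decide) (all6 rfl rfl rfl rfl rfl rfl)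

/-- an alternating matrix of rank two -/
def ot (a b : Ix 2 → ℂ) : Ix 2 → Ix 2 → ℂ := fun i j => a i * b j - a j * b i

/-- the polarised Pfaffian with a rank one matrix in the first slot -/
noncomputable def PB (a b : Ix 2 → ℂ) (β γ : Ix 2 → Ix 2 → ℂ) : ℂ :=
  ∑ σ : Equiv.Perm (Ix 2), cs σ * ((a (σ (0, false)) * b (σ (0, true))) *
    (β (σ (1, false)) (σ (1, true)) * γ (σ (2, false)) (σ (2, true))))

lemma PB_ot (a b c d e f : Ix 2 → ℂ) : PB a b (ot c d) (ot e f) = 4 * D6 a b c d e f := by
  have h : PB a b (ot c d) (ot e f) = D6 a b c d e f - D6 a b d c e f - D6 a b c d f e +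
      D6 a b d c f e := by
    simp only [D6_eq]
    unfold PB ot
    rw [← Finset.sum_sub_distrib, ← Finset.sum_sub_distrib, ← Finset.sum_add_distrib]
    refine Finset.sum_congr rfl fun σ _ => ?_
    ring
  rw [h, D6_sw2 a b d c e f, D6_sw1 a b c d e f, D6_sw2 a b c d e f]
  ring

/-- the indicator of an index of the complement -/
noncomputable def dl (j : K 2) : Ix 2 → ℂ := fun i => if i = em j then 1 else 0

/-- the indicator of an index of the plane -/
noncomputable def ev (c : Bool) : Ix 2 → ℂ := fun i => if i = (0, c) then 1 else 0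

lemma YY_PB (β : Ix 2 → Ix 2 → ℂ) (p : T6) : YY β p = PB (dl p.1) (dl p.2) β β := by
  unfold YY PP PB
  refine Finset.sum_congr rfl fun σ _ => ?_
  rw [pc3]
  simp only [Fin.cons_zero, Fin.cons_succ, Fin.prod_univ_two]
  rfl

lemma PB_sum {A : Type} [Fintype A] (a b : Ix 2 → ℂ) (x y : A → ℂ)
    (M N : A → Ix 2 → Ix 2 → ℂ) :
    PB a b (fun i j => ∑ q, x q * M q i j) (fun i j => ∑ q, y q * N q i j) =
      ∑ q, ∑ r, x q * y r * PB a b (M q) (N r) := by
  unfold PB
  simp only [Finset.mul_sum]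
  have h : ∀ σ : Equiv.Perm (Ix 2), cs σ * (a (σ (0, false)) * b (σ (0, true)) *
      ((∑ q, x q * M q (σ (1, false)) (σ (1, true))) *
        (∑ q, y q * N q (σ (2, false)) (σ (2, true))))) =
      ∑ q, ∑ r, x q * y r * (cs σ * (a (σ (0, false)) * b (σ (0, true)) *
        (M q (σ (1, false)) (σ (1, true)) * N r (σ (2, false)) (σ (2, true))))) := by
    intro σ
    rw [Finset.sum_mul_sum, Finset.mul_sum, Finset.mul_sum]
    refine Finset.sum_congr rfl fun q _ => ?_
    rw [Finset.mul_sum, Finset.mul_sum]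
    exact Finset.sum_congr rfl fun r _ => by ring
  simp only [← Finset.mul_sum]
  rw [Finset.sum_congr rfl fun σ _ => h σ, Finset.sum_comm]
  refine Finset.sum_congr rfl fun q _ => ?_
  rw [Finset.sum_comm]
  refine Finset.sum_congr rfl fun r _ => ?_
  rw [← Finset.mul_sum]

/-- the matrices of the fibration -/
noncomputable def DD : (Q4 → ℂ) →ₗ[ℂ] Matrix Q4 Q4 ℂ where
  toFun x := fun a j => -(x (j.1, a.1) * (if a.2 = j.2 then 1 else 0))
  map_add' x y := by
    ext a j
    simp only [Pi.add_apply, Matrix.add_apply]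
    ring
  map_smul' c x := by
    ext a j
    simp only [Pi.smul_apply, Matrix.smul_apply, smul_eq_mul, RingHom.id_apply]
    ring

lemma DD_det : ∃ x, (DD x).det ≠ 0 := by
  refine ⟨fun q => if q.1 = q.2 then 1 else 0, ?_⟩
  have h : DD (fun q => if q.1 = q.2 then 1 else 0) = -1 := by
    ext a j
    change -((if (j.1, a.1).1 = (j.1, a.1).2 then (1 : ℂ) else 0) *
      (if a.2 = j.2 then 1 else 0)) = (-1 : Matrix Q4 Q4 ℂ) a j
    rw [Matrix.neg_apply, Matrix.one_apply]
    obtain ⟨a1, a2⟩ := a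
    obtain ⟨j1, j2⟩ := j
    cases a1 <;> cases a2 <;> cases j1 <;> cases j2 <;> simp
  rw [h, Matrix.det_neg, Matrix.det_one]
  norm_num

lemma zu_inl (u x : Q4 → ℂ) (α c : Bool) : zu DD u x (Sum.inl (α, c)) =
    ∑ d, u (d, c) * x (α, d) := by
  change -(∑ a : Q4, u a * -(x (α, a.1) * (if a.2 = c then 1 else 0))) = _
  rw [Fintype.sum_prod_type]
  simp only [Fintype.sum_bool]
  cases c <;> simp <;> ring

lemma zu_inr (u x : Q4 → ℂ) (q : Q4) : zu DD u x (Sum.inr q) = x q := rfl

/-- the forms of the leaf -/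
noncomputable def fv (u : Q4 → ℂ) (d : Bool) : Ix 2 → ℂ := fun i =>
  dl (0, d) i + ∑ c, u (d, c) * dl (1, c) i

lemma BS_inl (α c : Bool) : BS (Sum.inl (α, c)) = ot (ev α) (dl (1, c)) := rfl

lemma BS_inr (α c : Bool) : BS (Sum.inr (α, c)) = ot (ev α) (dl (0, c)) := rfl

lemma ew_zu (u x : Q4 → ℂ) : ew (zu DD u x) =
    fun i j => ∑ q : Q4, x q * ot (ev q.1) (fv u q.2) i j := by
  funext i j
  unfold ew
  rw [Fintype.sum_sum_type, Fintype.sum_prod_type, Fintype.sum_prod_type, Fintype.sum_prod_type]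
  simp only [Fintype.sum_bool, zu_inl, zu_inr, BS_inl, BS_inr]
  unfold ot fv
  simp only [Fintype.sum_bool]
  ring

/-- the basic component -/
noncomputable def Tt (u : Q4 → ℂ) (i j : K 2) : ℂ :=
  D6 (dl i) (dl j) (ev false) (fv u false) (ev true) (fv u true)

lemma YY_leaf (u x : Q4 → ℂ) (p : T6) : YY (ew (zu DD u x)) p =
    8 * (x (false, false) * x (true, true) - x (false, true) * x (true, false)) *
      Tt u p.1 p.2 := by
  rw [YY_PB, ew_zu, PB_sum]
  simp only [PB_ot]
  have hz1 : ∀ (α : Bool) (d e : Bool), D6 (dl p.1) (dl p.2) (ev α) (fv u d) (ev α) (fv u e) = 0 :=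
    fun α d e => D6_zero (1, false) (2, false) (by decide) rfl
  have hz2 : ∀ (α β : Bool) (d : Bool), D6 (dl p.1) (dl p.2) (ev α) (fv u d) (ev β) (fv u d) = 0 :=
    fun α β d => D6_zero (1, true) (2, true) (by decide) rfl
  have h1 : D6 (dl p.1) (dl p.2) (ev true) (fv u false) (ev false) (fv u true) =
      -Tt u p.1 p.2 := D6_swf _ _ _ _ _ _
  have h2 : D6 (dl p.1) (dl p.2) (ev false) (fv u true) (ev true) (fv u false) =
      -Tt u p.1 p.2 := D6_swt _ _ _ _ _ _
  have h3 : D6 (dl p.1) (dl p.2) (ev true) (fv u true) (ev false) (fv u false) =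
      Tt u p.1 p.2 := by
    rw [D6_swf _ _ (ev false) (fv u true) (ev true) (fv u false), h2, neg_neg]
  have h4 : D6 (dl p.1) (dl p.2) (ev false) (fv u false) (ev true) (fv u true) =
      Tt u p.1 p.2 := rfl
  simp only [Fintype.sum_prod_type, Fintype.sum_bool, hz1, hz2, h1, h2, h3, h4]
  ring

lemma Tt_swap (u : Q4 → ℂ) (i j : K 2) : Tt u j i = -Tt u i j := D6_sw0 _ _ _ _ _ _

lemma D6_add (a c d e f : Ix 2 → ℂ) (b b' b'' : Ix 2 → ℂ) (s t : ℂ) :
    D6 a (fun i => b i + s * b' i + t * b'' i) c d e f =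
      D6 a b c d e f + s * D6 a b' c d e f + t * D6 a b'' c d e f := by
  simp only [D6_eq, Finset.mul_sum]
  rw [← Finset.sum_add_distrib, ← Finset.sum_add_distrib]
  exact Finset.sum_congr rfl fun σ _ => by ring

lemma Tt_ker (u : Q4 → ℂ) (i : K 2) (d : Bool) :
    Tt u i (0, d) + u (d, false) * Tt u i (1, false) + u (d, true) * Tt u i (1, true) = 0 := by
  unfold Tt
  rw [← D6_add]
  have h : (fun j : Ix 2 => dl (0, d) j + u (d, false) * dl (1, false) j +
      u (d, true) * dl (1, true) j) = fv u d := by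
    funext j
    unfold fv
    simp only [Fintype.sum_bool]
    ring
  rw [h]
  cases d
  · exact D6_zero (0, true) (1, true) (by decide) rfl
  · exact D6_zero (0, true) (2, true) (by decide) rfl

/-- the vectors annihilated by the forms of the leaf -/
noncomputable def pv (u : Q4 → ℂ) (c : Bool) : K 2 → ℂ
  | (0, d) => -u (d, c)
  | (1, c') => if c' = c then 1 else 0

lemma Tt_eq (u : Q4 → ℂ) (i j : K 2) : Tt u i j = Tt u (1, false) (1, true) *
    (pv u false i * pv u true j - pv u true i * pv u false j) := by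
  have hd : ∀ i, Tt u i i = 0 := by
    intro i
    have h := Tt_swap u i i
    have h2 : (2 : ℂ) * Tt u i i = 0 := by linear_combination h
    rcases mul_eq_zero.1 h2 with h3 | h3
    · norm_num at h3
    · exact h3
  have ff := hd (1, false)
  have tt := hd (1, true)
  have tf := Tt_swap u (1, false) (1, true)
  have k1 := fun d => Tt_ker u (1, false) d
  have k2 := fun d => Tt_ker u (1, true) d
  have k3 := fun e d => Tt_ker u (0, e) d
  have s1 := fun d => Tt_swap u (1, false) (0, d)
  have s2 := fun d => Tt_swap u (1, true) (0, d)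
  obtain ⟨i1, i2⟩ := i
  obtain ⟨j1, j2⟩ := j
  fin_cases i1 <;> fin_cases j1
  · change Tt u (0, i2) (0, j2) = Tt u (1, false) (1, true) *
      (-u (i2, false) * -u (j2, true) - -u (i2, true) * -u (j2, false))
    linear_combination k3 i2 j2 - u (j2, false) * s1 i2 - u (j2, true) * s2 i2 +
      u (j2, false) * k1 i2 + u (j2, true) * k2 i2 - u (j2, false) * u (i2, false) * ff -
      u (j2, true) * u (i2, true) * tt - u (j2, true) * u (i2, false) * tf
  · cases j2
    · change Tt u (0, i2) (1, false) = Tt u (1, false) (1, true) *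
        (-u (i2, false) * 0 - -u (i2, true) * 1)
      linear_combination s1 i2 - k1 i2 + u (i2, false) * ff
    · change Tt u (0, i2) (1, true) = Tt u (1, false) (1, true) *
        (-u (i2, false) * 1 - -u (i2, true) * 0)
      linear_combination s2 i2 - k2 i2 + u (i2, true) * tt + u (i2, false) * tf
  · cases i2
    · change Tt u (1, false) (0, j2) = Tt u (1, false) (1, true) *
        (1 * -u (j2, true) - 0 * -u (j2, false))
      linear_combination k1 j2 - u (j2, false) * ff
    · change Tt u (1, true) (0, j2) = Tt u (1, false) (1, true) *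
        (0 * -u (j2, true) - 1 * -u (j2, false))
      linear_combination k2 j2 - u (j2, true) * tt - u (j2, false) * tf
  · cases i2 <;> cases j2
    · change Tt u (1, false) (1, false) = Tt u (1, false) (1, true) * (1 * 0 - 0 * 1)
      linear_combination ff
    · change Tt u (1, false) (1, true) = Tt u (1, false) (1, true) * (1 * 1 - 0 * 0)
      ring
    · change Tt u (1, true) (1, false) = Tt u (1, false) (1, true) * (0 * 0 - 1 * 1)
      linear_combination tf
    · change Tt u (1, true) (1, true) = Tt u (1, false) (1, true) * (0 * 1 - 1 * 0)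
      linear_combination tt

end Pool.Agent.R735.HA
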