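import Pool.Agent.R735.HA.Semi

/-!
# The quantitative coordinate theorem for tensors with a decomposable extremal bivector
-/

set_option autoImplicit false

namespace Pool.Agent.R735.HA

open Finset MeasureTheory Pool.Agent.TH598.GV
open scoped ComplexConjugate ComplexOrder

section dimfour

variable {I : Type} [Fintype I]

/-- the Hermitian form on arrays -/
noncomputable def Sf (H : I → I → I → I → ℂ) (p q : I → I → ℂ) : ℂ :=
  ∑ i, ∑ j, ∑ i', ∑ j', H i j i' j' * (p i j * conj (q i' j'))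

lemma alt_left {H : I → I → I → I → ℂ} (hH : HS H) (p q : I → I → ℂ) :
    Sf H (fun i j => p j i) q = -Sf H p q := by
  unfold Sf
  rw [Finset.sum_comm, ← Finset.sum_neg_distrib]
  refine Finset.sum_congr rfl fun i _ => ?_
  rw [← Finset.sum_neg_distrib]
  refine Finset.sum_congr rfl fun j _ => ?_
  rw [← Finset.sum_neg_distrib]
  refine Finset.sum_congr rfl fun i' _ => ?_
  rw [← Finset.sum_neg_distrib]
  refine Finset.sum_congr rfl fun j' _ => ?_
  rw [hH.alt i j i' j']
  ring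

lemma Sf_herm {H : I → I → I → I → ℂ} (hH : HS H) (p q : I → I → ℂ) :
    Sf H q p = conj (Sf H p q) := by
  have h : conj (Sf H p q) = ∑ i, ∑ j, ∑ i', ∑ j', H i' j' i j * (conj (p i j) * q i' j') := by
    unfold Sf
    simp only [map_sum, map_mul, Complex.conj_conj]
    refine Finset.sum_congr rfl fun i _ => Finset.sum_congr rfl fun j _ =>
      Finset.sum_congr rfl fun i' _ => Finset.sum_congr rfl fun j' _ => ?_
    rw [hH.herm i j i' j']
  rw [h]
  unfold Sf
  have e1 : ∀ F : I → I → I → I → ℂ, ∑ i, ∑ j, ∑ i', ∑ j', F i j i' j' =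
      ∑ i, ∑ j, ∑ i', ∑ j', F i' j' i j := by
    intro F
    calc ∑ i, ∑ j, ∑ i', ∑ j', F i j i' j' = ∑ a : I × I, ∑ b : I × I, F a.1 a.2 b.1 b.2 := by
          simp only [Fintype.sum_prod_type]
      _ = ∑ b : I × I, ∑ a : I × I, F a.1 a.2 b.1 b.2 := Finset.sum_comm
      _ = _ := by simp only [Fintype.sum_prod_type]
  rw [e1]
  refine Finset.sum_congr rfl fun i _ => Finset.sum_congr rfl fun j _ =>
    Finset.sum_congr rfl fun i' _ => Finset.sum_congr rfl fun j' _ => by ring

lemma Sf_sub_left (H : I → I → I → I → ℂ) (p p' q : I → I → ℂ) :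
    Sf H (fun i j => p i j - p' i j) q = Sf H p q - Sf H p' q := by
  unfold Sf
  simp only [← Finset.sum_sub_distrib]
  refine Finset.sum_congr rfl fun i _ => Finset.sum_congr rfl fun j _ =>
    Finset.sum_congr rfl fun i' _ => Finset.sum_congr rfl fun j' _ => by ring

/-- only the alternating part matters -/
lemma Sf_congr {H : I → I → I → I → ℂ} (hH : HS H) (p q : I → I → ℂ)
    (h : ∀ i j, p i j - p j i = q i j - q j i) : Sf H p p = Sf H q q := by
  have h1 : ∀ r, Sf H p r = Sf H q r := by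
    intro r
    have e1 : Sf H (fun i j => p i j - p j i) r = 2 * Sf H p r := by
      rw [Sf_sub_left H p (fun i j => p j i) r, alt_left hH]
      ring
    have e2 : Sf H (fun i j => q i j - q j i) r = 2 * Sf H q r := by
      rw [Sf_sub_left H q (fun i j => q j i) r, alt_left hH]
      ring
    have e3 : (fun i j => p i j - p j i) = fun i j => q i j - q j i := by
      funext i j
      exact h i j
    rw [e3, e2] at e1
    exact (mul_left_cancel₀ two_ne_zero e1).symm
  rw [h1 p, Sf_herm hH p q, h1 q, ← Sf_herm hH q q]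

lemma Sf_qf (H : I → I → I → I → ℂ) (z w : I → ℂ) :
    Sf H (fun i j => z i * w j) (fun i j => z i * w j) = qf H z w := by
  unfold Sf qf
  refine Finset.sum_congr rfl fun i _ => Finset.sum_congr rfl fun j _ =>
    Finset.sum_congr rfl fun i' _ => Finset.sum_congr rfl fun j' _ => ?_
  rw [map_mul]
  ring

end dimfour

/-- four components -/
def v4 (a b c d : ℂ) : K 2 → ℂ
  | (0, false) => a
  | (0, true) => b
  | (1, false) => c
  | (1, true) => d

lemma all4 {P : K 2 → Prop} (h0 : P (0, false)) (h1 : P (0, true)) (h2 : P (1, false))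
    (h3 : P (1, true)) : ∀ r, P r := by
  rintro ⟨i, c⟩
  fin_cases i <;> cases c <;> assumption

/-- In dimension four the bivectors of a coordinate hyperplane are decomposable. -/
lemma hyper4 (q : K 2 → K 2 → ℂ) (h1 : ∀ j, q (0, false) j = 0) (h2 : ∀ j, q j (0, false) = 0) :
    ∃ z w : K 2 → ℂ, ∀ i j, q i j - q j i = z i * w j - z j * w i := by
  obtain ⟨r, hr⟩ : ∃ r : K 2 → K 2 → ℂ, ∀ i j, r i j = q i j - q j i := ⟨_, fun _ _ => rfl⟩
  have ha : ∀ i j, r j i = -r i j := fun i j => by rw [hr, hr]; ring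
  have hd : ∀ i, r i i = 0 := fun i => by rw [hr]; ring
  have h0 : ∀ j, r (0, false) j = 0 := fun j => by rw [hr, h1, h2]; ring
  have h0' : ∀ j, r j (0, false) = 0 := fun j => by rw [hr, h1, h2]; ring
  simp only [← hr]
  by_cases h : r (0, true) (1, false) = 0
  · refine ⟨v4 0 (r (0, true) (1, true)) (r (1, false) (1, true)) 0, v4 0 0 0 1, ?_⟩
    refine all4 (all4 ?_ ?_ ?_ ?_) (all4 ?_ ?_ ?_ ?_) (all4 ?_ ?_ ?_ ?_) (all4 ?_ ?_ ?_ ?_)
    all_goals simp only [v4, hd, h0, h0', h, ha (0, true) (1, false), ha (0, true) (1, true),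
      ha (1, false) (1, true)]
    all_goals ring
  · refine ⟨v4 0 1 0 (-(r (1, false) (1, true) / r (0, true) (1, false))),
      v4 0 0 (r (0, true) (1, false)) (r (0, true) (1, true)), ?_⟩
    refine all4 (all4 ?_ ?_ ?_ ?_) (all4 ?_ ?_ ?_ ?_) (all4 ?_ ?_ ?_ ?_) (all4 ?_ ?_ ?_ ?_)
    all_goals simp only [v4, hd, h0, h0', ha (0, true) (1, false), ha (0, true) (1, true),
      ha (1, false) (1, true)]
    all_goals first | ring1 | (field_simp; ring1) | (field_simp; done)

/-- dimension four -/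
lemma four (H : K 2 → K 2 → K 2 → K 2 → ℂ) (hH : HS H) (δ : ℝ) (hδ : 0 ≤ δ)
    (hK : ∀ z w : K 2 → ℂ, δ * (qf UU z w).re ≤ (qf H z w).re) :
    2 ^ 2 * ((2 * 2).factorial : ℝ) * δ ^ 2 ≤ (GG H).re := by
  refine Pool.Agent.TH367.J4006.strong
    (fun H hH t => Pool.Agent.TH263.J4005.laplace H hH t) H hH (0, false) ?_ δ hδ hK
  intro p hp1 hp2
  obtain ⟨z, w, h⟩ := hyper4 p hp1 hp2
  have h1 := Sf_congr hH p (fun i j => z i * w j) h
  rw [Sf_qf] at h1
  have h2 : ∑ i, ∑ j, ∑ i', ∑ j', H i j i' j' * (p i j * conj (p i' j')) = Sf H p p := rfl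
  rw [h2, h1]
  have h3 : 0 ≤ (qf UU z w).re := by
    have := Pool.Agent.TH541.J3422.qf_II z w
    exact this
  exact (mul_nonneg hδ h3).trans (hK z w)

lemma U0_e1 (k l : Ix 2) : U0 (0, false) (0, true) k l = UU (0, false) (0, true) k l := by
  have h : ∀ p : Ix 2, (if p = e0 then (0 : ℂ) else W p (0, false) (0, true) * W p k l) =
      if p = e1 then W e1 k l else 0 := by
    intro p
    by_cases hp0 : p = e0
    · subst hp0
      rw [if_pos rfl, if_neg (Ne.symm Pool.Agent.TH263.J4005.e1_ne)]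
    · rw [if_neg hp0]
      by_cases hp : p = e1
      · subst hp
        rw [if_pos rfl]
        have : W (e1 : Ix 2) (0, false) (0, true) = 1 := by
          unfold W e0 e1
          simp
        rw [this, one_mul]
      · rw [if_neg hp]
        have : W p (0, false) (0, true) = 0 := by
          have h1 : ¬ ((0, true) : Ix 2) = p := fun h => hp h.symm
          have h2 : ¬ ((0, false) : Ix 2) = p := fun h => hp0 h.symm
          unfold W
          simp [h1, h2]
        rw [this, zero_mul]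
  unfold U0
  rw [Finset.sum_congr rfl fun p _ => h p, Finset.sum_ite_eq' Finset.univ e1,
    if_pos (Finset.mem_univ _)]
  unfold W UU e0 e1
  simp only [eq_comm (a := k), eq_comm (a := l)]
  ring

/-- **Quantitative coordinate theorem.** -/
theorem quant6 (H : Ix 2 → Ix 2 → Ix 2 → Ix 2 → ℂ) (hH : HS H) (δ : ℝ) (hδ : 0 ≤ δ)
    (hK : ∀ z w : Ix 2 → ℂ, δ * (qf UU z w).re ≤ (qf H z w).re)
    (h0 : ∀ k l, H (0, false) (0, true) k l = δ * UU (0, false) (0, true) k l) :
    2 ^ (2 + 1) * ((2 * (2 + 1)).factorial : ℝ) * δ ^ (2 + 1) ≤ (GG H).re := by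
  obtain ⟨H1, hH1⟩ : ∃ H1 : Ix 2 → Ix 2 → Ix 2 → Ix 2 → ℂ, ∀ i j i' j', H1 i j i' j' =
    H i j i' j' - (δ : ℂ) * U0 i j i' j' := ⟨_, fun _ _ _ _ => rfl⟩
  have hHS1 : HS H1 := by
    constructor
    · intro i j i' j'
      rw [hH1, hH1, map_sub, map_mul, Complex.conj_ofReal, hH.herm,
        Pool.Agent.TH367.J4006.U0_HS.herm]
    · intro i j i' j'
      rw [hH1, hH1, hH.alt, Pool.Agent.TH367.J4006.U0_HS.alt]
      ring
  have h01 : ∀ k l, H1 (0, false) (0, true) k l = 0 := by
    intro k l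
    rw [hH1, h0, U0_e1, sub_self]
  have hK1 : ∀ z w : Ix 2 → ℂ, 0 ≤ (qf H1 z w).re := by
    intro z w
    have h1 : qf H1 z w = qf H z w - (δ : ℂ) * qf U0 z w := by
      unfold qf
      simp only [Finset.mul_sum, ← Finset.sum_sub_distrib]
      refine Finset.sum_congr rfl fun i _ => Finset.sum_congr rfl fun j _ =>
        Finset.sum_congr rfl fun i' _ => Finset.sum_congr rfl fun j' _ => ?_
      rw [hH1]
      ring
    rw [h1, Complex.sub_re, Complex.re_ofReal_mul]
    have h2 := hK z w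
    have h3 := mul_le_mul_of_nonneg_left (Pool.Agent.TH367.J4006.U0_le_UU z w) hδ
    linarith
  have hG1 : 0 ≤ (GG H1).re := semiZ H1 hHS1 h01 hK1
  have hlap := Pool.Agent.TH263.J4005.laplace H1 hHS1 (δ : ℂ)
  have hback : (fun i j i' j' => H1 i j i' j' + (δ : ℂ) * U0 i j i' j') = H := by
    funext i j i' j'
    rw [hH1]
    ring
  rw [hback] at hlap
  have hterm : ∀ p : Ix 2, p ≠ e0 → 2 ^ 2 * ((2 * 2).factorial : ℝ) * δ ^ 2 ≤
      (GG (fun a b a' b' : K 2 => H1 (cp p a) (cp p b) (cp p a') (cp p b'))).re := by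
    intro p hp
    have h0 : (fun a b a' b' : K 2 => H1 (cp p a) (cp p b) (cp p a') (cp p b')) =
        fun a b a' b' : K 2 => H (cp p a) (cp p b) (cp p a') (cp p b') := by
      funext a b a' b'
      rw [hH1, Pool.Agent.TH367.J4006.U0_ne _ _ _ _ (Pool.Agent.TH367.J4006.cp_ne p hp a)
        (Pool.Agent.TH367.J4006.cp_ne p hp b)]
      ring
    rw [h0]
    have hHS2 : HS (fun a b a' b' : K 2 => H (cp p a) (cp p b) (cp p a') (cp p b')) :=
      ⟨fun _ _ _ _ => hH.herm _ _ _ _, fun _ _ _ _ => hH.alt _ _ _ _⟩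
    refine four _ hHS2 δ hδ ?_
    intro z w
    have h1 := hK (Pool.Agent.TH367.J4006.xt (cp p) z) (Pool.Agent.TH367.J4006.xt (cp p) w)
    rw [Pool.Agent.TH367.J4006.qf_xt, Pool.Agent.TH367.J4006.qf_xt,
      Pool.Agent.TH367.J4006.UU_inj (cp p) (fun a b h => Pool.Agent.TH367.J4006.cp_inj p h)] at h1
    exact h1
  have hcard : (univ.erase (e0 : Ix 2)).card = 5 := by
    rw [Finset.card_erase_of_mem (Finset.mem_univ _), Finset.card_univ, Fintype.card_prod,
      Fintype.card_fin, Fintype.card_bool]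
  have hsum : (5 : ℝ) * (2 ^ 2 * ((2 * 2).factorial : ℝ) * δ ^ 2) ≤
      (∑ p : Ix 2, (if p = e0 then 0 else
        GG (fun a b a' b' : K 2 => H1 (cp p a) (cp p b) (cp p a') (cp p b')))).re := by
    rw [Complex.re_sum, ← Finset.add_sum_erase _ _ (Finset.mem_univ (e0 : Ix 2)), if_pos rfl,
      Complex.zero_re, zero_add]
    have h5 : (5 : ℝ) = ((univ.erase (e0 : Ix 2)).card : ℝ) := by rw [hcard]; norm_num
    rw [h5, ← nsmul_eq_mul]
    refine Finset.card_nsmul_le_sum _ _ _ fun p hp => ?_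
    have hp0 : p ≠ e0 := Finset.ne_of_mem_erase hp
    rw [if_neg hp0]
    exact hterm p hp0
  have hre : (GG H).re = (GG H1).re + δ * 12 *
      (∑ p : Ix 2, (if p = e0 then 0 else
        GG (fun a b a' b' : K 2 => H1 (cp p a) (cp p b) (cp p a') (cp p b')))).re := by
    rw [hlap, Complex.add_re]
    congr 1
    have h1 : (δ : ℂ) * (4 * (((2 : ℕ) : ℂ) + 1)) = ((δ * 12 : ℝ) : ℂ) := by
      push_cast
      ring
    rw [h1, Complex.re_ofReal_mul]
  rw [hre]
  have hpos : 0 ≤ δ * 12 := by positivity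
  have h5 := mul_le_mul_of_nonneg_left hsum hpos
  have h6 : 2 ^ (2 + 1) * ((2 * (2 + 1)).factorial : ℝ) * δ ^ (2 + 1) =
      δ * 12 * (5 * (2 ^ 2 * ((2 * 2).factorial : ℝ) * δ ^ 2)) := by
    have e1 : ((2 * (2 + 1)).factorial : ℝ) = 720 := by norm_num [Nat.factorial]
    have e2 : ((2 * 2).factorial : ℝ) = 24 := by norm_num [Nat.factorial]
    rw [e1, e2]
    ring
  rw [h6]
  linarith

end Pool.Agent.R735.HA
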