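import Pool.Agent.R735.HA.Dec

/-!
# The coordinate theorem for a tensor with a decomposable null bivector
-/

set_option autoImplicit false

namespace Pool.Agent.R735.HA

open Finset MeasureTheory Pool.Agent.TH598.GV
open scoped ComplexConjugate ComplexOrder

/-- positive definite mixed block -/
theorem posZ (H : Ix 2 → Ix 2 → Ix 2 → Ix 2 → ℂ) (hH : HS H)
    (h0 : ∀ k l, H (0, false) (0, true) k l = 0) (hB : (BZ H).PosDef)
    (hK : ∀ z w : Ix 2 → ℂ, 0 ≤ (qf H z w).re) : 0 ≤ (GG H).re := by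
  obtain ⟨L, g, Γ, hL, hg, hΓ1, hΓ2, rfl⟩ := dec H hH h0 hB
  exact coordZ L g Γ hL hg hΓ1 hΓ2 hK

/-- the basis matrices -/
noncomputable def bb : S8 ⊕ T6 → Ix 2 → Ix 2 → ℂ := Sum.elim BS wp

/-- their pairs of indices -/
def pb : S8 ⊕ T6 → Ix 2 × Ix 2 := Sum.elim pz (fun p => (em p.1, em p.2))

lemma bb_real (s : S8 ⊕ T6) (i j : Ix 2) : conj (bb s i j) = bb s i j := by
  rcases s with s | p
  · exact BS_real s i j
  · exact conj_wp p i j

lemma dec3 (M : Ix 2 → Ix 2 → ℂ) (hM : ∀ i j, M j i = -M i j)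
    (h0 : M (0, false) (0, true) = 0) (i j : Ix 2) :
    M i j = ∑ s, M (pb s).1 (pb s).2 * bb s i j := by
  rw [Fintype.sum_sum_type]
  exact dec2 M hM h0 i j

lemma qf_hat (H : Ix 2 → Ix 2 → Ix 2 → Ix 2 → ℂ) (hH : HS H)
    (h0 : ∀ k l, H (0, false) (0, true) k l = 0) (z w : Ix 2 → ℂ) :
    qf H z w = ∑ s, ∑ t, H (pb s).1 (pb s).2 (pb t).1 (pb t).2 *
      bl (bb s) z w * conj (bl (bb t) z w) := by
  have h0' : ∀ x y, H x y (0, false) (0, true) = 0 := by
    intro x y
    rw [hH.herm (0, false) (0, true) x y, h0, map_zero]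
  have h1 : H = fun i j i' j' => ∑ a : (S8 ⊕ T6) × (S8 ⊕ T6),
      H (pb a.1).1 (pb a.1).2 (pb a.2).1 (pb a.2).2 * bb a.1 i j * conj (bb a.2 i' j') := by
    funext i j i' j'
    rw [Fintype.sum_prod_type]
    rw [dec3 (fun i j => H i j i' j') (fun i j => hH.alt i j i' j') (h0 i' j') i j]
    refine Finset.sum_congr rfl fun s _ => ?_
    rw [dec3 (fun i' j' => H (pb s).1 (pb s).2 i' j') (fun i j => herm_alt hH _ _ i j)
      (h0' _ _) i' j', Finset.sum_mul]
    refine Finset.sum_congr rfl fun t _ => ?_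
    rw [bb_real]
    ring
  conv_lhs => rw [h1]
  rw [qf_rank, Fintype.sum_prod_type]

/-- the vector of a mixed coordinate vector -/
noncomputable def xs (ξ : S8 → ℂ) (α : Bool) : K 2 → ℂ
  | (0, c) => ξ (Sum.inr (α, c))
  | (1, c) => ξ (Sum.inl (α, c))

/-- the scaled bivector -/
lemma bl_scaled (ξ : S8 → ℂ) (δ : ℂ) (s : S8) :
    bl (BS s) (zv (fun c => if c then 0 else 1) (fun j => -(δ * xs ξ true j)))
      (zv (fun c => if c then 1 else 0) (fun j => δ * xs ξ false j)) = δ * ξ s := by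
  rw [bl_BS, zv_0, zv_0, zv_em, zv_em]
  rcases s with ⟨α, c⟩ | ⟨α, c⟩
  · cases α
    · change 1 * (δ * ξ (Sum.inl (false, c))) - 0 * (-(δ * ξ (Sum.inl (true, c)))) = _
      ring
    · change 0 * (δ * ξ (Sum.inl (false, c))) - 1 * (-(δ * ξ (Sum.inl (true, c)))) = _
      ring
  · cases α
    · change 1 * (δ * ξ (Sum.inr (false, c))) - 0 * (-(δ * ξ (Sum.inr (true, c)))) = _
      ring
    · change 0 * (δ * ξ (Sum.inr (false, c))) - 1 * (-(δ * ξ (Sum.inr (true, c)))) = _
      ring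

/-- the mixed block is nonnegative -/
lemma mixed_nonneg (H : Ix 2 → Ix 2 → Ix 2 → Ix 2 → ℂ) (hH : HS H)
    (h0 : ∀ k l, H (0, false) (0, true) k l = 0)
    (hK : ∀ z w : Ix 2 → ℂ, 0 ≤ (qf H z w).re) (ξ : S8 → ℂ) :
    0 ≤ (∑ s, ∑ t, BZ H s t * ξ s * conj (ξ t)).re := by
  obtain ⟨η, hη⟩ : ∃ η : T6 → ℂ, ∀ p, η p = -(xs ξ true p.1 * xs ξ false p.2) :=
    ⟨_, fun _ => rfl⟩
  obtain ⟨a, ha⟩ : ∃ a, a = ∑ s, ∑ t, BZ H s t * ξ s * conj (ξ t) := ⟨_, rfl⟩
  obtain ⟨b, hb⟩ : ∃ b, b = (∑ s : S8, ∑ q : T6, H (pz s).1 (pz s).2 (em q.1) (em q.2) *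
      ξ s * conj (η q)) + ∑ p : T6, ∑ t : S8, H (em p.1) (em p.2) (pz t).1 (pz t).2 *
      η p * conj (ξ t) := ⟨_, rfl⟩
  obtain ⟨c, hc⟩ : ∃ c, c = ∑ p : T6, ∑ q : T6, H (em p.1) (em p.2) (em q.1) (em q.2) *
      η p * conj (η q) := ⟨_, rfl⟩
  have key : ∀ δ : ℝ, 0 < δ → 0 ≤ a.re + δ * b.re + δ ^ 2 * c.re := by
    intro δ hδ
    have h1 := hK (zv (fun c => if c then 0 else 1) (fun j => -((δ : ℂ) * xs ξ true j)))
      (zv (fun c => if c then 1 else 0) (fun j => (δ : ℂ) * xs ξ false j))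
    have h2 : qf H (zv (fun c => if c then 0 else 1) (fun j => -((δ : ℂ) * xs ξ true j)))
      (zv (fun c => if c then 1 else 0) (fun j => (δ : ℂ) * xs ξ false j)) =
        ((δ ^ 2 : ℝ) : ℂ) * (a + δ * b + ((δ ^ 2 : ℝ) : ℂ) * c) := by
      rw [qf_hat H hH h0, Fintype.sum_sum_type]
      have e1 : ∀ p : T6, bl (wp p) (zv (fun c => if c then 0 else 1)
          (fun j => -((δ : ℂ) * xs ξ true j)))
          (zv (fun c => if c then 1 else 0) (fun j => (δ : ℂ) * xs ξ false j)) =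
          (δ : ℂ) ^ 2 * η p := by
        intro p
        rw [bl_wp, zv_em, zv_em, hη]
        ring
      simp only [Fintype.sum_sum_type (α₁ := S8) (α₂ := T6)]
      simp only [bb, pb, Sum.elim_inl, Sum.elim_inr, bl_scaled, e1, map_mul, map_pow,
        Complex.conj_ofReal]
      rw [ha, hb, hc]
      unfold BZ
      simp only [Finset.mul_sum, mul_add, Finset.sum_add_distrib]
      push_cast
      rw [add_assoc, add_assoc, add_assoc]
      congr 1
      · exact Finset.sum_congr rfl fun s _ => Finset.sum_congr rfl fun t _ => by ring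
      congr 1
      · exact Finset.sum_congr rfl fun s _ => Finset.sum_congr rfl fun t _ => by ring
      congr 1
      · exact Finset.sum_congr rfl fun s _ => Finset.sum_congr rfl fun t _ => by ring
      · exact Finset.sum_congr rfl fun s _ => Finset.sum_congr rfl fun t _ => by ring
    rw [h2, Complex.re_ofReal_mul, Complex.add_re, Complex.add_re, Complex.re_ofReal_mul,
      Complex.re_ofReal_mul] at h1
    exact nonneg_of_mul_nonneg_right h1 (by positivity)
  rw [← ha]
  have ht : Filter.Tendsto (fun δ : ℝ => a.re + δ * b.re + δ ^ 2 * c.re)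
      (nhdsWithin 0 (Set.Ioi 0)) (nhds a.re) := by
    have hcont : Continuous fun δ : ℝ => a.re + δ * b.re + δ ^ 2 * c.re := by fun_prop
    have h3 := (hcont.tendsto 0).mono_left (nhdsWithin_le_nhds (s := Set.Ioi 0))
    simpa using h3
  exact ge_of_tendsto ht (Filter.eventually_of_mem self_mem_nhdsWithin fun ε hε => key ε hε)

lemma BZ_herm {H : Ix 2 → Ix 2 → Ix 2 → Ix 2 → ℂ} (hH : HS H) : (BZ H).IsHermitian := by
  ext s t
  rw [Matrix.conjTranspose_apply]
  unfold BZ
  rw [hH.herm (pz s).1 (pz s).2 (pz t).1 (pz t).2]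
  exact Complex.conj_conj _

lemma BZ_psd {H : Ix 2 → Ix 2 → Ix 2 → Ix 2 → ℂ} (hH : HS H)
    (h0 : ∀ k l, H (0, false) (0, true) k l = 0)
    (hK : ∀ z w : Ix 2 → ℂ, 0 ≤ (qf H z w).re) : (BZ H).PosSemidef := by
  refine Matrix.PosSemidef.of_dotProduct_mulVec_nonneg (BZ_herm hH) fun c => ?_
  have key : star c ⬝ᵥ (BZ H).mulVec c =
      ∑ s, ∑ t, BZ H s t * conj (c s) * conj (conj (c t)) := by
    unfold dotProduct Matrix.mulVec dotProduct
    refine Finset.sum_congr rfl fun s _ => ?_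
    rw [Finset.mul_sum]
    refine Finset.sum_congr rfl fun t _ => ?_
    rw [Complex.conj_conj]
    simp only [Pi.star_apply, RCLike.star_def]
    ring
  have hre := mixed_nonneg H hH h0 hK (fun s => conj (c s))
  rw [← key] at hre
  rw [Complex.le_def]
  refine ⟨hre, ?_⟩
  have hh := BZ_herm hH
  have him : (star c ⬝ᵥ (BZ H).mulVec c).im = 0 := by
    have hs : conj (star c ⬝ᵥ (BZ H).mulVec c) = star c ⬝ᵥ (BZ H).mulVec c := by
      unfold dotProduct Matrix.mulVec dotProduct
      rw [map_sum]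
      simp only [map_mul, map_sum, Finset.mul_sum]
      rw [Finset.sum_comm]
      refine Finset.sum_congr rfl fun t _ => Finset.sum_congr rfl fun s _ => ?_
      have e : conj (BZ H s t) = BZ H t s := by
        have := congrFun (congrFun hh t) s
        rw [Matrix.conjTranspose_apply] at this
        exact this
      rw [e]
      simp only [Pi.star_apply, RCLike.star_def, Complex.conj_conj]
      ring
    exact Complex.conj_eq_iff_im.1 hs
  rw [him]
  rfl

/-- the identity of the mixed block -/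
noncomputable def NN : Ix 2 → Ix 2 → Ix 2 → Ix 2 → ℂ := fun i j i' j' =>
  ∑ s, BS s i j * BS s i' j'

lemma NN_HS : HS NN := by
  constructor
  · intro i j k l
    unfold NN
    rw [map_sum]
    exact Finset.sum_congr rfl fun s _ => by rw [map_mul, BS_real, BS_real, mul_comm]
  · intro i j k l
    unfold NN
    rw [← Finset.sum_neg_distrib]
    exact Finset.sum_congr rfl fun s _ => by rw [BS_swap s i j]; ring

lemma qf_NN (z w : Ix 2 → ℂ) : 0 ≤ (qf NN z w).re := by
  have h : NN = fun i j i' j' => ∑ a, (1 : ℂ) * BS a i j * conj (BS a i' j') := by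
    funext i j i' j'
    unfold NN
    exact Finset.sum_congr rfl fun s _ => by rw [BS_real, one_mul]
  rw [h, qf_rank, Complex.re_sum]
  refine Finset.sum_nonneg fun a _ => ?_
  rw [one_mul, Complex.mul_conj, Complex.ofReal_re]
  exact Complex.normSq_nonneg _

lemma sx_inj {s t : S8} (h : sx s = sx t) : s = t := by
  rcases s with ⟨a, c⟩ | ⟨a, c⟩ <;> rcases t with ⟨b, d⟩ | ⟨b, d⟩
  · simp only [sx, Prod.mk.injEq, true_and] at h
    rw [h.1, h.2]
  · simp [sx] at h
  · simp [sx] at h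
  · simp only [sx, Prod.mk.injEq, true_and] at h
    rw [h.1, h.2]

lemma BZ_NN : BZ NN = 1 := by
  ext s t
  unfold BZ NN pz
  simp only [BS_em]
  rw [Matrix.one_apply, Finset.sum_eq_single s]
  · rw [if_pos rfl, one_mul]
    by_cases h : s = t
    · subst h
      rw [if_pos rfl, if_pos rfl]
    · rw [if_neg h, if_neg (fun h' => h (sx_inj h'))]
  · intro r _ hr
    rw [if_neg (fun h' => hr (sx_inj h')), zero_mul]
  · simp

/-- **The coordinate theorem for tensors with a decomposable null bivector.** -/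
theorem semiZ (H : Ix 2 → Ix 2 → Ix 2 → Ix 2 → ℂ) (hH : HS H)
    (h0 : ∀ k l, H (0, false) (0, true) k l = 0)
    (hK : ∀ z w : Ix 2 → ℂ, 0 ≤ (qf H z w).re) : 0 ≤ (GG H).re := by
  obtain ⟨He, hHe⟩ : ∃ He : ℝ → Ix 2 → Ix 2 → Ix 2 → Ix 2 → ℂ, He = fun (ε : ℝ) i j i' j' =>
    H i j i' j' + (ε : ℂ) * NN i j i' j' := ⟨_, rfl⟩
  have hpos : ∀ ε : ℝ, 0 < ε → 0 ≤ (GG (He ε)).re := by
    intro ε hε
    refine posZ (He ε) ⟨?_, ?_⟩ ?_ ?_ ?_
    · intro i j i' j'
      simp only [hHe, map_add, map_mul, Complex.conj_ofReal]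
      rw [hH.herm, NN_HS.herm]
    · intro i j i' j'
      simp only [hHe]
      rw [hH.alt, NN_HS.alt]
      ring
    · intro k l
      simp only [hHe]
      rw [h0]
      unfold NN
      rw [Finset.sum_eq_zero fun s _ => by rw [BS_zero, zero_mul]]
      ring
    · have hb : BZ (He ε) = BZ H + ε • (1 : Matrix S8 S8 ℂ) := by
        rw [← BZ_NN]
        ext s t
        simp only [BZ, hHe, Matrix.add_apply, Matrix.smul_apply, Complex.real_smul]
      rw [hb]
      refine Matrix.PosDef.posSemidef_add (BZ_psd hH h0 hK) ?_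
      exact Matrix.PosDef.smul Matrix.PosDef.one hε
    · intro z w
      have hq : qf (He ε) z w = qf H z w + (ε : ℂ) * qf NN z w := by
        unfold qf
        simp only [hHe, add_mul, Finset.sum_add_distrib, Finset.mul_sum]
        congr 1
        refine Finset.sum_congr rfl fun i _ => Finset.sum_congr rfl fun j _ =>
          Finset.sum_congr rfl fun i' _ => Finset.sum_congr rfl fun j' _ => by ring
      rw [hq, Complex.add_re, Complex.re_ofReal_mul]
      exact add_nonneg (hK z w) (mul_nonneg hε.le (qf_NN z w))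
  have hc : Continuous fun ε : ℝ => (GG (He ε)).re := by
    unfold GG
    simp only [hHe]
    fun_prop
  have h0 : (GG (He 0)).re = (GG H).re := by
    congr 2
    funext i j i' j'
    simp [hHe]
  have ht : Filter.Tendsto (fun ε : ℝ => (GG (He ε)).re) (nhdsWithin 0 (Set.Ioi 0))
      (nhds (GG H).re) := by
    rw [← h0]
    exact (hc.tendsto 0).mono_left nhdsWithin_le_nhds
  exact ge_of_tendsto ht (Filter.eventually_of_mem self_mem_nhdsWithin fun ε hε => hpos ε hε)

end Pool.Agent.R735.HA
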