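import Pool.Agent.R735.HA.Quant

/-!
# Change of basis for the double alternating sum
-/

set_option autoImplicit false

namespace Pool.Agent.R735.HA

open Finset MeasureTheory Pool.Agent.TH598.GV
open scoped ComplexConjugate ComplexOrder

section trans

variable {I : Type} [Fintype I] [DecidableEq I]

lemma det_sub (M : Matrix I I ℂ) (φ : I → I) :
    (M.submatrix φ id).det = ∑ σ : Equiv.Perm I, cs σ * ∏ x, M (φ x) (σ x) := by
  rw [← Matrix.det_transpose, Matrix.det_apply']
  refine Finset.sum_congr rfl fun σ _ => ?_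
  rfl

/-- a sum over all maps weighted by determinants -/
lemma sum_maps (M : Matrix I I ℂ) (T : (I → I) → ℂ) :
    ∑ φ : I → I, T φ * (M.submatrix φ id).det =
      M.det * ∑ σ : Equiv.Perm I, cs σ * T σ := by
  symm
  rw [Finset.mul_sum]
  refine Finset.sum_of_injOn (fun σ : Equiv.Perm I => (σ : I → I))
    (fun a _ b _ h => Equiv.coe_fn_injective h) (fun _ _ => Finset.mem_coe.2 (Finset.mem_univ _))
    (fun φ _ hφ => ?_) (fun σ _ => ?_)
  · have hinj : ¬ Function.Injective φ := by
      intro h
      apply hφ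
      refine ⟨Equiv.ofBijective φ (Finite.injective_iff_bijective.1 h), ?_, rfl⟩
      exact Finset.mem_coe.2 (Finset.mem_univ _)
    obtain ⟨x, y, hxy, hne⟩ : ∃ x y, φ x = φ y ∧ x ≠ y := by
      simpa [Function.Injective] using hinj
    rw [Matrix.det_zero_of_row_eq hne, mul_zero]
    funext j
    simp only [Matrix.submatrix_apply, hxy]
  · rw [Matrix.det_permute]
    unfold cs
    ring

variable {B : Type} [Fintype B] [DecidableEq B]

/-- pairs of values -/
def fe (B I : Type) : (B × Bool → I) ≃ (B → I × I) where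
  toFun φ b := (φ (b, false), φ (b, true))
  invFun ψ x := if x.2 then (ψ x.1).2 else (ψ x.1).1
  left_inv φ := by
    funext x
    obtain ⟨b, c⟩ := x
    cases c <;> rfl
  right_inv ψ := rfl

/-- change of basis for the polarised Pfaffian -/
theorem PP_trans (M : Matrix (B × Bool) (B × Bool) ℂ) (h : B → B × Bool → B × Bool → ℂ) :
    PP (fun b i j => ∑ a, ∑ c, M a i * M c j * h b a c) = M.det * PP h := by
  have h1 : ∀ σ : Equiv.Perm (B × Bool),
      ∏ b : B, ∑ a, ∑ c, M a (σ (b, false)) * M c (σ (b, true)) * h b a c =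
      ∑ φ : B × Bool → B × Bool, (∏ b, h b (φ (b, false)) (φ (b, true))) *
        ∏ x, M (φ x) (σ x) := by
    intro σ
    have e1 : ∀ b : B, ∑ a, ∑ c, M a (σ (b, false)) * M c (σ (b, true)) * h b a c =
        ∑ p : (B × Bool) × (B × Bool), M p.1 (σ (b, false)) * M p.2 (σ (b, true)) *
          h b p.1 p.2 := fun b => (Fintype.sum_prod_type (fun p : (B × Bool) × (B × Bool) =>
          M p.1 (σ (b, false)) * M p.2 (σ (b, true)) * h b p.1 p.2)).symm
    rw [Finset.prod_congr rfl fun b _ => e1 b, Finset.prod_univ_sum, Fintype.piFinset_univ,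
      ← Equiv.sum_comp (fe B (B × Bool))]
    refine Finset.sum_congr rfl fun φ _ => ?_
    rw [Fintype.prod_prod_type, ← Finset.prod_mul_distrib]
    refine Finset.prod_congr rfl fun b _ => ?_
    simp only [Fintype.prod_bool, fe, Equiv.coe_fn_mk]
    ring
  unfold PP
  simp only [h1]
  rw [← sum_maps M (fun φ => ∏ b, h b (φ (b, false)) (φ (b, true)))]
  simp only [Finset.mul_sum, det_sub]
  rw [Finset.sum_comm]
  refine Finset.sum_congr rfl fun φ _ => Finset.sum_congr rfl fun σ _ => by ring

/-- the tensor in the basis given by the columns of `M` -/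
noncomputable def Hc (M : Matrix I I ℂ) (H : I → I → I → I → ℂ) : I → I → I → I → ℂ :=
  fun i j k l => ∑ a, ∑ b, ∑ c, ∑ d, H a b c d *
    (M a i * M b j * conj (M c k) * conj (M d l))

lemma GG_left (H : B × Bool → B × Bool → B × Bool → B × Bool → ℂ) :
    GG H = ∑ τ : Equiv.Perm (B × Bool), cs τ *
      PP (fun b i j => H i j (τ (b, false)) (τ (b, true))) := by
  unfold GG PP
  rw [Finset.sum_comm]
  refine Finset.sum_congr rfl fun τ _ => ?_
  rw [Finset.mul_sum]
  exact Finset.sum_congr rfl fun σ _ => by ring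

lemma GG_right (H : B × Bool → B × Bool → B × Bool → B × Bool → ℂ) :
    GG H = ∑ σ : Equiv.Perm (B × Bool), cs σ *
      PP (fun b k l => H (σ (b, false)) (σ (b, true)) k l) := by
  unfold GG PP
  refine Finset.sum_congr rfl fun τ _ => ?_
  rw [Finset.mul_sum]
  exact Finset.sum_congr rfl fun σ _ => by ring

/-- change of basis -/
theorem GG_trans (M : Matrix (B × Bool) (B × Bool) ℂ)
    (H : B × Bool → B × Bool → B × Bool → B × Bool → ℂ) :
    GG (Hc M H) = M.det * conj M.det * GG H := by
  obtain ⟨H2, hH2⟩ : ∃ H2 : B × Bool → B × Bool → B × Bool → B × Bool → ℂ, ∀ a b k l,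
    H2 a b k l = ∑ c, ∑ d, conj (M c k) * conj (M d l) * H a b c d := ⟨_, fun _ _ _ _ => rfl⟩
  have h1 : ∀ i j k l, Hc M H i j k l = ∑ a, ∑ b, M a i * M b j * H2 a b k l := by
    intro i j k l
    unfold Hc
    refine Finset.sum_congr rfl fun a _ => Finset.sum_congr rfl fun b _ => ?_
    rw [hH2, Finset.mul_sum]
    refine Finset.sum_congr rfl fun c _ => ?_
    rw [Finset.mul_sum]
    exact Finset.sum_congr rfl fun d _ => by ring
  have h2 : GG (Hc M H) = M.det * GG H2 := by
    rw [GG_left, GG_left H2, Finset.mul_sum]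
    refine Finset.sum_congr rfl fun τ _ => ?_
    simp only [h1]
    rw [PP_trans M (fun b i j => H2 i j (τ (b, false)) (τ (b, true)))]
    ring
  have h3 : GG H2 = conj M.det * GG H := by
    rw [GG_right, GG_right H, Finset.mul_sum]
    refine Finset.sum_congr rfl fun σ _ => ?_
    simp only [hH2]
    have h4 := PP_trans (M.map conj) (fun b i j => H (σ (b, false)) (σ (b, true)) i j)
    have h5 : (M.map conj).det = conj M.det := by
      rw [RingHom.map_det]
      rfl
    rw [h5] at h4
    simp only [Matrix.map_apply] at h4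
    rw [h4]
    ring
  rw [h2, h3]
  ring

lemma Hc_HS (M : Matrix I I ℂ) {H : I → I → I → I → ℂ} (hH : HS H) : HS (Hc M H) := by
  constructor
  · intro i j k l
    have h := Sf_herm hH (fun a b => M a i * M b j) (fun a b => M a k * M b l)
    have e1 : ∀ i j k l, Hc M H i j k l =
        Sf H (fun a b => M a i * M b j) (fun a b => M a k * M b l) := by
      intro i j k l
      unfold Hc Sf
      refine Finset.sum_congr rfl fun a _ => Finset.sum_congr rfl fun b _ =>
        Finset.sum_congr rfl fun c _ => Finset.sum_congr rfl fun d _ => ?_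
      rw [map_mul]
      ring
    rw [e1, e1]
    exact h
  · intro i j k l
    unfold Hc
    rw [Finset.sum_comm, ← Finset.sum_neg_distrib]
    refine Finset.sum_congr rfl fun a _ => ?_
    rw [← Finset.sum_neg_distrib]
    refine Finset.sum_congr rfl fun b _ => ?_
    rw [← Finset.sum_neg_distrib]
    refine Finset.sum_congr rfl fun c _ => ?_
    rw [← Finset.sum_neg_distrib]
    refine Finset.sum_congr rfl fun d _ => ?_
    rw [hH.alt a b c d]
    ring

end trans

end Pool.Agent.R735.HA
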